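import Mathlib

/-! # Continuous weak selections as open tournaments

A weak selection on `X` chooses a point of every two-element subset. We write `R a b` if `a ≠ b`
and `a` is chosen. The selection is continuous if and only if `R` is open in `X × X`. -/

set_option autoImplicit false

namespace Pool.Agent.H110.King

open Set Topology Filter

variable {X : Type*}

/-- A weak selection: a choice of one of the two points `a`, `b`, not depending on their
order. -/
structure WeakSelection (X : Type*) where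
  /-- the point chosen from `{a, b}` -/
  sel : X → X → X
  symm : ∀ a b, sel a b = sel b a
  mem : ∀ a b, sel a b = a ∨ sel a b = b

/-- Continuity of a weak selection. -/
def WeakSelection.IsCont [TopologicalSpace X] (φ : WeakSelection X) : Prop :=
  ∀ a b, a ≠ b → ∀ W : Set X, IsOpen W → φ.sel a b ∈ W →
    ∃ U V : Set X, IsOpen U ∧ IsOpen V ∧ a ∈ U ∧ b ∈ V ∧
      ∀ a' ∈ U, ∀ b' ∈ V, a' ≠ b' → φ.sel a' b' ∈ W

/-- `a →_φ b`: either `a = b`, or `a ≠ b` and `φ {a, b} = b`. -/
def WeakSelection.Arrow (φ : WeakSelection X) (a b : X) : Prop :=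
  a = b ∨ (a ≠ b ∧ φ.sel a b = b)

/-- `z` is a `φ`-king: every point is reached from `z` in two steps. -/
def WeakSelection.IsKing (φ : WeakSelection X) (z : X) : Prop :=
  ∀ x, ∃ y, φ.Arrow z y ∧ φ.Arrow y x

/-- Every continuous weak selection has a king. -/
def IsKingSpace (X : Type*) [TopologicalSpace X] : Prop :=
  ∀ φ : WeakSelection X, φ.IsCont → ∃ z, φ.IsKing z

/-- Every continuous real-valued function is bounded. -/
def IsPseudocompact (X : Type*) [TopologicalSpace X] : Prop :=
  ∀ f : X → ℝ, Continuous f → ∃ M, ∀ x, |f x| ≤ M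

/-- Every point has an open neighbourhood with pseudocompact closure. -/
def IsLocallyPseudocompact (X : Type*) [TopologicalSpace X] : Prop :=
  ∀ x : X, ∃ U : Set X, IsOpen U ∧ x ∈ U ∧ IsPseudocompact (closure U)

/-- An open tournament. -/
structure Tour [TopologicalSpace X] (R : X → X → Prop) : Prop where
  asymm : ∀ a b, R a b → ¬ R b a
  conn : ∀ a b, a ≠ b → R a b ∨ R b a
  open_prod : IsOpen {p : X × X | R p.1 p.2}

namespace Tour

variable [TopologicalSpace X] {R : X → X → Prop}

theorem irrefl (h : Tour R) (a : X) : ¬ R a a := fun h' => h.asymm a a h' h'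

theorem ne (h : Tour R) {a b : X} (hab : R a b) : a ≠ b := by
  rintro rfl
  exact h.irrefl a hab

theorem not_iff (h : Tour R) {a b : X} (hab : a ≠ b) : ¬ R a b ↔ R b a :=
  ⟨fun h' => (h.conn a b hab).resolve_left h', fun h' => h.asymm _ _ h'⟩

theorem flip (h : Tour R) : Tour (fun a b => R b a) where
  asymm a b hab := h.asymm b a hab
  conn a b hab := h.conn b a hab.symm
  open_prod := h.open_prod.preimage continuous_swap

theorem isOpen_right (h : Tour R) (a : X) : IsOpen {y | R a y} :=
  h.open_prod.preimage (Continuous.prodMk_right a)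

theorem isOpen_left (h : Tour R) (a : X) : IsOpen {y | R y a} :=
  h.flip.isOpen_right a

theorem exists_nhds (h : Tour R) {a b : X} (hab : R a b) :
    ∃ O O' : Set X, IsOpen O ∧ IsOpen O' ∧ a ∈ O ∧ b ∈ O' ∧ ∀ x ∈ O, ∀ y ∈ O', R x y := by
  obtain ⟨O, O', hO, hO', ha, hb, hs⟩ := isOpen_prod_iff.1 h.open_prod a b hab
  exact ⟨O, O', hO, hO', ha, hb, fun x hx y hy => hs (mk_mem_prod hx hy)⟩

theorem isClosed_left (h : Tour R) (a : X) : IsClosed {y | y = a ∨ R y a} := by
  have : {y | y = a ∨ R y a} = {y | R a y}ᶜ := by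
    ext y
    simp only [Set.mem_ofPred_eq, mem_compl_iff]
    constructor
    · rintro (rfl | hy)
      · exact h.irrefl _
      · exact h.asymm _ _ hy
    · intro hy
      by_cases hya : y = a
      · exact Or.inl hya
      · exact Or.inr ((h.conn y a hya).resolve_right hy)
  rw [this]
  exact (h.isOpen_right a).isClosed_compl

theorem isClosed_right (h : Tour R) (a : X) : IsClosed {y | y = a ∨ R a y} :=
  h.flip.isClosed_left a

/-- A point outside a connected set `S` compares in the same way with all points of `S`. -/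
theorem const (h : Tour R) {S : Set X} (hS : IsPreconnected S) {x a b : X} (hx : x ∉ S)
    (ha : a ∈ S) (hb : b ∈ S) (hxa : R x a) : R x b := by
  by_contra hxb
  have hxb' : R b x := (h.conn b x (by rintro rfl; exact hx hb)).resolve_right hxb
  obtain ⟨y, -, hy, hy'⟩ := hS _ _ (h.isOpen_right x) (h.isOpen_left x)
    (fun y hy => h.conn x y (by rintro rfl; exact hx hy)) ⟨a, ha, hxa⟩ ⟨b, hb, hxb'⟩
  exact h.asymm _ _ hy hy'

theorem const' (h : Tour R) {S : Set X} (hS : IsPreconnected S) {x a b : X} (hx : x ∉ S)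
    (ha : a ∈ S) (hb : b ∈ S) (hxa : R a x) : R b x :=
  h.flip.const hS hx ha hb hxa

end Tour

/-- If `S` is preconnected and `S ∖ {p}` is the disjoint union of open parts `U`, `V`, then
`(S ∩ U) ∪ {p}` is preconnected. -/
theorem preconnected_insert [TopologicalSpace X] {S U V : Set X} {p : X} (hS : IsPreconnected S)
    (hp : p ∈ S) (hU : IsOpen U) (hV : IsOpen V) (hUV : Disjoint U V)
    (hcov : ∀ x ∈ S, x = p ∨ x ∈ U ∨ x ∈ V) : IsPreconnected {x | x ∈ S ∧ (x = p ∨ x ∈ U)} := by
  have key : ∀ u v : Set X, IsOpen u → IsOpen v → {x | x ∈ S ∧ (x = p ∨ x ∈ U)} ⊆ u ∪ v →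
      p ∈ u → ({x | x ∈ S ∧ (x = p ∨ x ∈ U)} ∩ v).Nonempty →
      ({x | x ∈ S ∧ (x = p ∨ x ∈ U)} ∩ (u ∩ v)).Nonempty := by
    intro u v hu hv huv hpu hvn
    obtain ⟨t, ⟨htS, ht⟩, htv⟩ := hvn
    rcases ht with rfl | htU
    · exact ⟨t, ⟨htS, Or.inl rfl⟩, hpu, htv⟩
    · obtain ⟨x, hxS, hx1, hx2⟩ := hS (u ∪ V) (v ∩ U) (hu.union hV) (hv.inter hU) (by
        intro x hx
        rcases hcov x hx with rfl | hxU | hxV
        · exact Or.inl (Or.inl hpu)
        · rcases huv ⟨hx, Or.inr hxU⟩ with h' | h'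
          · exact Or.inl (Or.inl h')
          · exact Or.inr ⟨h', hxU⟩
        · exact Or.inl (Or.inr hxV)) ⟨p, hp, Or.inl hpu⟩ ⟨t, htS, htv, htU⟩
      refine ⟨x, ⟨hxS, Or.inr hx2.2⟩, ?_, hx2.1⟩
      rcases hx1 with h' | h'
      · exact h'
      · exact absurd h' (disjoint_left.1 hUV hx2.2)
  intro u v hu hv huv hun hvn
  rcases huv ⟨hp, Or.inl rfl⟩ with hpu | hpv
  · exact key u v hu hv huv hpu hvn
  · have := key v u hv hu (by rwa [union_comm]) hpv hun
    rwa [inter_comm v u] at this

namespace Tour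

variable [TopologicalSpace X] {R : X → X → Prop}

theorem disj (h : Tour R) (a : X) : Disjoint {y | R a y} {y | R y a} :=
  disjoint_left.2 fun _ h1 h2 => h.asymm _ _ h1 h2

theorem preconnected_above (h : Tour R) {S : Set X} (hS : IsPreconnected S) {a : X}
    (ha : a ∈ S) : IsPreconnected {x | x ∈ S ∧ (x = a ∨ R a x)} :=
  preconnected_insert hS ha (h.isOpen_right a) (h.isOpen_left a) (h.disj a) fun x _ => by
    by_cases hx : x = a
    · exact Or.inl hx
    · exact Or.inr (h.conn a x (Ne.symm hx))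

theorem preconnected_below (h : Tour R) {S : Set X} (hS : IsPreconnected S) {a : X}
    (ha : a ∈ S) : IsPreconnected {x | x ∈ S ∧ (x = a ∨ R x a)} :=
  h.flip.preconnected_above hS ha

theorem trans (h : Tour R) {S : Set X} (hS : IsPreconnected S) {a b c : X} (ha : a ∈ S)
    (hb : b ∈ S) (_hc : c ∈ S) (hab : R a b) (hbc : R b c) : R a c := by
  by_contra hac
  have hca : R c a := (h.conn c a (by rintro rfl; exact h.asymm _ _ hab hbc)).resolve_right hac
  have h1 := h.preconnected_above hS ha
  have hc' : c ∉ {x | x ∈ S ∧ (x = a ∨ R a x)} := by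
    rintro ⟨-, rfl | h2⟩
    · exact h.irrefl _ hca
    · exact hac h2
  exact h.asymm _ _ hbc (h.const h1 hc' ⟨ha, Or.inl rfl⟩ ⟨hb, Or.inr hab⟩ hca)

/-- The interval between two points of a connected set is connected. -/
theorem preconnected_interval (h : Tour R) {S : Set X} (hS : IsPreconnected S) {a b : X}
    (ha : a ∈ S) (hb : b ∈ S) (hab : R a b) :
    IsPreconnected {x | (x ∈ S ∧ (x = a ∨ R a x)) ∧ (x = b ∨ R x b)} :=
  h.preconnected_below (h.preconnected_above hS ha) ⟨hb, Or.inr hab⟩

end Tour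

end Pool.Agent.H110.King
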