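import Pool.Agent.H110.King.Basic

/-! # Kings and clopen sets; quasi-components and components -/

set_option autoImplicit false

namespace Pool.Agent.H110.King

open Set Topology Filter

variable {X : Type*} [TopologicalSpace X] {R : X → X → Prop}

/-- Every open tournament on `X` has a king. -/
def KingP (X : Type*) [TopologicalSpace X] : Prop :=
  ∀ R : X → X → Prop, Tour R → ∃ z, ∀ x, ∃ y, (z = y ∨ R y z) ∧ (y = x ∨ R x y)

open Classical in
/-- The weak selection given by a tournament. -/
noncomputable def selOf (h : Tour R) : WeakSelection X where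
  sel a b := if R b a then b else a
  symm a b := by
    by_cases hab : a = b
    · rw [hab]
    · by_cases h1 : R b a
      · rw [if_pos h1, if_neg (h.asymm _ _ h1)]
      · rw [if_neg h1, if_pos ((h.conn a b hab).resolve_right h1)]
  mem a b := by
    by_cases h1 : R b a
    · exact Or.inr (if_pos h1)
    · exact Or.inl (if_neg h1)

theorem selOf_sel (h : Tour R) {a b : X} (hab : R a b) : (selOf h).sel a b = a :=
  if_neg (h.asymm _ _ hab)

theorem selOf_sel' (h : Tour R) {a b : X} (hab : R b a) : (selOf h).sel a b = b :=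
  if_pos hab

theorem selOf_isCont (h : Tour R) : (selOf h).IsCont := by
  intro a b hab W hW hsel
  rcases h.conn a b hab with h1 | h1
  · obtain ⟨O, O', hO, hO', ha, hb, hR⟩ := h.exists_nhds h1
    rw [selOf_sel h h1] at hsel
    refine ⟨O ∩ W, O', hO.inter hW, hO', ⟨ha, hsel⟩, hb, fun a' ha' b' hb' _ => ?_⟩
    rw [selOf_sel h (hR a' ha'.1 b' hb')]
    exact ha'.2
  · obtain ⟨O, O', hO, hO', hb, ha, hR⟩ := h.exists_nhds h1
    rw [selOf_sel' h h1] at hsel
    refine ⟨O', O ∩ W, hO', hO.inter hW, ha, ⟨hb, hsel⟩, fun a' ha' b' hb' _ => ?_⟩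
    rw [selOf_sel' h (hR b' hb'.1 a' ha')]
    exact hb'.2

theorem selOf_arrow (h : Tour R) (a b : X) : (selOf h).Arrow a b ↔ a = b ∨ R b a := by
  unfold WeakSelection.Arrow
  constructor
  · rintro (hab | ⟨hab, hs⟩)
    · exact Or.inl hab
    · right
      by_contra h1
      rw [selOf_sel h ((h.conn a b hab).resolve_right h1)] at hs
      exact hab hs
  · rintro (hab | hab)
    · exact Or.inl hab
    · exact Or.inr ⟨(h.ne hab).symm, selOf_sel' h hab⟩

theorem IsKingSpace.kingP (h : IsKingSpace X) : KingP X := by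
  intro R hR
  obtain ⟨z, hz⟩ := h (selOf hR) (selOf_isCont hR)
  refine ⟨z, fun x => ?_⟩
  obtain ⟨y, h1, h2⟩ := hz x
  exact ⟨y, (selOf_arrow hR _ _).1 h1, (selOf_arrow hR _ _).1 h2⟩

theorem WeakSelection.tour [T2Space X] {φ : WeakSelection X} (h : φ.IsCont) :
    Tour (fun a b => a ≠ b ∧ φ.sel a b = a) where
  asymm a b hab hba := hab.1 (by rw [← hab.2, φ.symm, hba.2])
  conn a b hab := by
    rcases φ.mem a b with h1 | h1
    · exact Or.inl ⟨hab, h1⟩
    · exact Or.inr ⟨hab.symm, by rw [φ.symm, h1]⟩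
  open_prod := by
    rw [isOpen_prod_iff]
    rintro a b ⟨hab, hs⟩
    obtain ⟨W, W', hW, hW', ha, hb, hd⟩ := t2_separation hab
    obtain ⟨U, V, hU, hV, haU, hbV, hUV⟩ := h a b hab W hW (by rw [hs]; exact ha)
    refine ⟨U ∩ W, V ∩ W', hU.inter hW, hV.inter hW', ⟨haU, ha⟩, ⟨hbV, hb⟩, ?_⟩
    rintro ⟨a', b'⟩ ⟨ha', hb'⟩
    have hne : a' ≠ b' := by
      rintro rfl
      exact disjoint_left.1 hd ha'.2 hb'.2
    refine ⟨hne, (φ.mem a' b').resolve_right fun h1 => ?_⟩
    have := hUV a' ha'.1 b' hb'.1 hne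
    rw [h1] at this
    exact disjoint_left.1 hd this hb'.2

/-- In a king space the restriction of a tournament to a clopen set has a king. -/
theorem KingP.clopen (hK : KingP X) (h : Tour R) {A : Set X} (hA : IsClopen A)
    (hne : A.Nonempty) : ∃ z ∈ A, ∀ x ∈ A, ∃ y ∈ A, (z = y ∨ R y z) ∧ (y = x ∨ R x y) := by
  have hT : Tour (fun a b => (a ∈ A ∧ b ∈ A ∧ R a b) ∨ (a ∉ A ∧ b ∉ A ∧ R a b) ∨
      (a ∉ A ∧ b ∈ A)) := by
    refine ⟨fun a b h1 h2 => ?_, fun a b hab => ?_, ?_⟩
    · have := h.asymm a b
      tauto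
    · have := h.conn a b hab
      tauto
    · have hAo : IsOpen A := hA.isOpen
      have hAc : IsOpen Aᶜ := hA.isClosed.isOpen_compl
      have : {p : X × X | (p.1 ∈ A ∧ p.2 ∈ A ∧ R p.1 p.2) ∨ (p.1 ∉ A ∧ p.2 ∉ A ∧ R p.1 p.2) ∨
          (p.1 ∉ A ∧ p.2 ∈ A)} = ((A ×ˢ A) ∩ {p : X × X | R p.1 p.2}) ∪
          (((Aᶜ ×ˢ Aᶜ) ∩ {p : X × X | R p.1 p.2}) ∪ (Aᶜ ×ˢ A)) := by
        ext p
        simp only [Set.mem_ofPred_eq, mem_union, mem_inter_iff, mem_prod, mem_compl_iff]
        tauto
      rw [this]
      exact ((hAo.prod hAo).inter h.open_prod).union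
        (((hAc.prod hAc).inter h.open_prod).union (hAc.prod hAo))
  obtain ⟨z, hz⟩ := hK _ hT
  obtain ⟨x₀, hx₀⟩ := hne
  have hzA : z ∈ A := by
    by_contra hzA
    obtain ⟨y, h1, h2⟩ := hz x₀
    have hyA : y ∈ A := by
      rcases h2 with rfl | h2
      · exact hx₀
      · tauto
    rcases h1 with rfl | h1
    · exact hzA hyA
    · tauto
  refine ⟨z, hzA, fun x hx => ?_⟩
  obtain ⟨y, h1, h2⟩ := hz x
  have hyA : y ∈ A := by
    rcases h2 with rfl | h2
    · exact hx
    · tauto
  exact ⟨y, hyA, by tauto, by tauto⟩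

/-- In a king space every continuous map to `ℕ` takes finitely many values. -/
theorem KingP.finite_range (hK : KingP X) (h : Tour R) {f : X → ℕ} (hf : Continuous f) :
    (range f).Finite := by
  by_contra hinf
  have hT : Tour (fun a b => f a < f b ∨ (f a = f b ∧ R a b)) := by
    refine ⟨fun a b h1 h2 => ?_, fun a b hab => ?_, ?_⟩
    · have := h.asymm a b
      rcases h1 with h1 | ⟨h1, h1'⟩ <;> rcases h2 with h2 | ⟨h2, h2'⟩
      · omega
      · omega
      · omega
      · exact this h1' h2'
    · have := h.conn a b hab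
      rcases lt_trichotomy (f a) (f b) with h1 | h1 | h1
      · exact Or.inl (Or.inl h1)
      · rcases this with h2 | h2
        · exact Or.inl (Or.inr ⟨h1, h2⟩)
        · exact Or.inr (Or.inr ⟨h1.symm, h2⟩)
      · exact Or.inr (Or.inl h1)
    · have h1 : IsOpen {p : X × X | f p.1 < f p.2} :=
        isOpen_lt (hf.comp continuous_fst) (hf.comp continuous_snd)
      have h2 : IsOpen {p : X × X | f p.1 = f p.2} := by
        have : Continuous (fun p : X × X => (f p.1, f p.2)) := by fun_prop
        exact (isOpen_discrete {q : ℕ × ℕ | q.1 = q.2}).preimage this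
      exact h1.union (h2.inter h.open_prod)
  obtain ⟨z, hz⟩ := hK _ hT
  have : ∃ x, f z < f x := by
    by_contra hcon
    push Not at hcon
    exact hinf ((finite_Iic (f z)).subset (by rintro _ ⟨x, rfl⟩; exact hcon x))
  obtain ⟨x, hx⟩ := this
  obtain ⟨y, h1, h2⟩ := hz x
  have h3 : f y ≤ f z := by
    rcases h1 with rfl | h1 | h1
    · exact le_rfl
    · exact h1.le
    · exact h1.1.le
  have h4 : f x ≤ f y := by
    rcases h2 with rfl | h2 | h2
    · exact le_rfl
    · exact h2.le
    · exact h2.1.le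
  omega

/-- Points which no clopen set separates lie in the same component. -/
theorem Tour.mem_component (h : Tour R) {p r : X} (hpr : R p r)
    (hQ : ∀ V : Set X, IsClopen V → (p ∈ V ↔ r ∈ V)) : r ∈ connectedComponent p := by
  -- the quasi-component of `p`
  have hbet : ∀ V : Set X, IsClopen V → ∀ t ∈ V, p ∉ V → ¬ (R p t ∧ R t r) ∧
      ¬ (R r t ∧ R t p) := by
    intro V hV t ht hpV
    have hrV : r ∉ V := fun h' => hpV ((hQ V hV).2 h')
    have hclo : IsClopen ({y | R t y} ∩ Vᶜ) := by
      refine ⟨?_, (h.isOpen_right t).inter hV.compl.isOpen⟩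
      have : {y | R t y} ∩ Vᶜ = {y | y = t ∨ R t y} ∩ Vᶜ := by
        ext y
        simp only [mem_inter_iff, Set.mem_ofPred_eq, mem_compl_iff]
        constructor
        · rintro ⟨h1, h2⟩
          exact ⟨Or.inr h1, h2⟩
        · rintro ⟨rfl | h1, h2⟩
          · exact absurd ht h2
          · exact ⟨h1, h2⟩
      rw [this]
      exact (h.isClosed_right t).inter hV.compl.isClosed
    have hiff := hQ _ hclo
    constructor
    · rintro ⟨h1, h2⟩
      exact h.asymm _ _ h1 (hiff.2 ⟨h2, hrV⟩).1
    · rintro ⟨h1, h2⟩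
      exact h.asymm _ _ h1 (hiff.1 ⟨h2, hpV⟩).1
  -- no cycle through `p`, `r`
  have hcyc : ∀ t, ¬ (R r t ∧ R t p) := by
    rintro t ht
    have hclo : IsClopen {t | R r t ∧ R t p} := by
      refine ⟨?_, (h.isOpen_right r).inter (h.isOpen_left p)⟩
      have : {t | R r t ∧ R t p} = {t | t = r ∨ R r t} ∩ {t | t = p ∨ R t p} := by
        ext t
        simp only [mem_inter_iff, Set.mem_ofPred_eq]
        constructor
        · rintro ⟨h1, h2⟩
          exact ⟨Or.inr h1, Or.inr h2⟩
        · rintro ⟨rfl | h1, h2⟩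
          · rcases h2 with rfl | h2
            · exact absurd hpr (h.irrefl _)
            · exact absurd h2 (h.asymm _ _ hpr)
          · rcases h2 with rfl | h2
            · exact absurd h1 (h.asymm _ _ hpr)
            · exact ⟨h1, h2⟩
      rw [this]
      exact (h.isClosed_right r).inter (h.isClosed_left p)
    exact (hbet _ hclo t ht fun h' => h.irrefl _ h'.2).2 ht
  -- the interval
  set I : Set X := {t | (t = p ∨ R p t) ∧ (t = r ∨ R t r)} with hI
  have hIclosed : IsClosed I := (h.isClosed_right p).inter (h.isClosed_left r)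
  have hpI : p ∈ I := ⟨Or.inl rfl, Or.inr hpr⟩
  have hrI : r ∈ I := ⟨Or.inr hpr, Or.inl rfl⟩
  have key : ∀ u v : Set X, IsOpen u → IsOpen v → I ⊆ u ∪ v → p ∈ u → (I ∩ v).Nonempty →
      (I ∩ (u ∩ v)).Nonempty := by
    intro u v hu hv huv hpu hvn
    by_contra hemp
    have hdis : ∀ t ∈ I, t ∈ u → t ∉ v := fun t ht htu htv => hemp ⟨t, ht, htu, htv⟩
    have hpv : p ∉ v := hdis p hpI hpu
    have hEcl : IsClosed (I ∩ vᶜ) := hIclosed.inter hv.isClosed_compl
    have hFcl : IsClosed (I ∩ uᶜ) := hIclosed.inter hu.isClosed_compl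
    have hFeq : I ∩ v = I ∩ uᶜ := by
      ext t
      constructor
      · rintro ⟨h1, h2⟩
        exact ⟨h1, fun h3 => hdis t h1 h3 h2⟩
      · rintro ⟨h1, h2⟩
        exact ⟨h1, (huv h1).resolve_left h2⟩
    have hEeq : I ∩ u = I ∩ vᶜ := by
      ext t
      constructor
      · rintro ⟨h1, h2⟩
        exact ⟨h1, hdis t h1 h2⟩
      · rintro ⟨h1, h2⟩
        exact ⟨h1, (huv h1).resolve_right h2⟩
    by_cases hru : r ∈ u
    · -- both ends in `u`
      have hclo : IsClopen (I ∩ v) := by
        refine ⟨hFeq ▸ hFcl, ?_⟩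
        have : I ∩ v = ({t | R p t} ∩ {t | R t r}) ∩ v := by
          ext t
          constructor
          · rintro ⟨⟨h1, h2⟩, h3⟩
            refine ⟨⟨h1.resolve_left ?_, h2.resolve_left ?_⟩, h3⟩
            · rintro rfl
              exact hpv h3
            · rintro rfl
              exact hdis t hrI hru h3
          · rintro ⟨⟨h1, h2⟩, h3⟩
            exact ⟨⟨Or.inr h1, Or.inr h2⟩, h3⟩
        rw [this]
        exact ((h.isOpen_right p).inter (h.isOpen_left r)).inter hv
      obtain ⟨t, ht, htv⟩ := hvn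
      refine (hbet _ hclo t ⟨ht, htv⟩ fun h' => hpv h'.2).1 ⟨ht.1.resolve_left ?_,
        ht.2.resolve_left ?_⟩
      · rintro rfl
        exact hpv htv
      · rintro rfl
        exact hdis t hrI hru htv
    · have hrv : r ∈ v := (huv hrI).resolve_left hru
      -- the part below
      set O₁ : Set X := {t | R t p ∧ R t r}
      set O₂ : Set X := {t | R p t ∧ R r t}
      have h1 : IsClosed ((I ∩ vᶜ) ∪ O₁) := by
        have : (I ∩ vᶜ) ∪ O₁ = (I ∩ vᶜ) ∪ ({t | t = p ∨ R t p} ∩ {t | t = r ∨ R t r}) := by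
          ext t
          constructor
          · rintro (ht | ht)
            · exact Or.inl ht
            · exact Or.inr ⟨Or.inr ht.1, Or.inr ht.2⟩
          · rintro (ht | ⟨ht1, ht2⟩)
            · exact Or.inl ht
            · rcases ht1 with rfl | ht1
              · exact Or.inl ⟨hpI, hpv⟩
              · rcases ht2 with rfl | ht2
                · exact absurd ht1 (h.asymm _ _ hpr)
                · exact Or.inr ⟨ht1, ht2⟩
        rw [this]
        exact hEcl.union ((h.isClosed_left p).inter (h.isClosed_left r))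
      have h2 : IsClosed ((I ∩ uᶜ) ∪ O₂) := by
        have : (I ∩ uᶜ) ∪ O₂ = (I ∩ uᶜ) ∪ ({t | t = p ∨ R p t} ∩ {t | t = r ∨ R r t}) := by
          ext t
          constructor
          · rintro (ht | ht)
            · exact Or.inl ht
            · exact Or.inr ⟨Or.inr ht.1, Or.inr ht.2⟩
          · rintro (ht | ⟨ht1, ht2⟩)
            · exact Or.inl ht
            · rcases ht2 with rfl | ht2
              · exact Or.inl ⟨hrI, hru⟩
              · rcases ht1 with rfl | ht1
                · exact absurd ht2 (h.asymm _ _ hpr)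
                · exact Or.inr ⟨ht1, ht2⟩
        rw [this]
        exact hFcl.union ((h.isClosed_right p).inter (h.isClosed_right r))
      have h3 : ((I ∩ vᶜ) ∪ O₁)ᶜ = (I ∩ uᶜ) ∪ O₂ := by
        ext t
        simp only [mem_compl_iff, mem_union, mem_inter_iff, not_or, not_and, not_not]
        constructor
        · rintro ⟨h4, h5⟩
          by_cases htI : t ∈ I
          · exact Or.inl ⟨htI, fun h' => hdis t htI h' (h4 htI)⟩
          · right
            by_cases htp : t = p
            · subst htp; exact absurd hpI htI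
            by_cases htr : t = r
            · subst htr; exact absurd hrI htI
            rcases h.conn t p htp with h6 | h6
            · rcases h.conn t r htr with h7 | h7
              · exact absurd ⟨h6, h7⟩ h5
              · exact absurd ⟨h7, h6⟩ (hcyc t)
            · rcases h.conn t r htr with h7 | h7
              · exact absurd ⟨Or.inr h6, Or.inr h7⟩ htI
              · exact ⟨h6, h7⟩
        · rintro (⟨h4, h5⟩ | ⟨h4, h5⟩)
          · refine ⟨fun _ => (huv h4).resolve_left h5, fun h6 => ?_⟩
            rcases h4.1 with rfl | h7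
            · exact h.irrefl _ h6.1
            · exact h.asymm _ _ h7 h6.1
          · refine ⟨fun h6 => ?_, fun h6 => h.asymm _ _ h4 h6.1⟩
            rcases h6.2 with rfl | h7
            · exact hrv
            · exact absurd h7 (h.asymm _ _ h5)
      have hclo : IsClopen ((I ∩ vᶜ) ∪ O₁) :=
        ⟨h1, by rw [← isClosed_compl_iff, h3]; exact h2⟩
      have := (hQ _ hclo).1 (Or.inl ⟨hpI, hpv⟩)
      rcases this with h4 | h4
      · exact h4.2 hrv
      · exact h.irrefl _ h4.2
  have hconn : IsPreconnected I := by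
    intro u v hu hv huv hun hvn
    rcases huv hpI with hpu | hpv
    · exact key u v hu hv huv hpu hvn
    · have := key v u hv hu (by rwa [union_comm]) hpv hun
      rwa [inter_comm v u] at this
  exact hconn.subset_connectedComponent hpI hrI

/-- Quasi-components are components. -/
theorem Tour.exists_clopen (h : Tour R) {p t : X} (ht : t ∉ connectedComponent p) :
    ∃ V : Set X, IsClopen V ∧ t ∈ V ∧ p ∉ V := by
  by_contra hcon
  push Not at hcon
  have hQ : ∀ V : Set X, IsClopen V → (t ∈ V ↔ p ∈ V) := fun V hV =>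
    ⟨hcon V hV, fun hp => by
      by_contra htV
      exact hcon Vᶜ hV.compl htV hp⟩
  have hne : t ≠ p := by
    rintro rfl
    exact ht mem_connectedComponent
  rcases h.conn t p hne with h1 | h1
  · have := h.mem_component h1 hQ
    exact ht (connectedComponent_eq this ▸ mem_connectedComponent)
  · exact ht (h.mem_component h1 fun V hV => (hQ V hV).symm)

end Pool.Agent.H110.King
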