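import Pool.Agent.H110.King.Tube

/-! # Components in a king space

In a king space with a continuous weak selection every component has a least and a greatest
element. If moreover the space is regular and locally countably compact, then the components are
compact and have small countably compact clopen neighbourhoods. -/

set_option autoImplicit false

namespace Pool.Agent.H110.King

open Set Topology Filter

variable {X : Type*} [TopologicalSpace X] {R : X → X → Prop}

/-- In a king space each component has a greatest element. -/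
theorem KingP.exists_max (hK : KingP X) (h : Tour R) (c₀ : X) :
    ∃ b ∈ connectedComponent c₀, ∀ c ∈ connectedComponent c₀, c = b ∨ R c b := by
  set C := connectedComponent c₀ with hC
  have hCp : IsPreconnected C := isPreconnected_connectedComponent
  have hCc : IsClosed C := isClosed_connectedComponent
  have hc₀ : c₀ ∈ C := mem_connectedComponent
  by_contra hcon
  have hno : ∀ c ∈ C, ∃ c' ∈ C, R c c' := by
    intro c hc
    by_contra hc'
    push Not at hc'
    refine hcon ⟨c, hc, fun x hx => ?_⟩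
    by_cases hxc : x = c
    · exact Or.inl hxc
    · exact Or.inr ((h.conn x c hxc).resolve_right (hc' x hx))
  have hclo : IsClopen (Cᶜ ∩ {x | R c₀ x}) := by
    refine ⟨⟨?_⟩, hCc.isOpen_compl.inter (h.isOpen_right c₀)⟩
    rw [isOpen_iff_mem_nhds]
    intro x hx
    by_cases hxC : x ∈ C
    · obtain ⟨c', hc', hxc'⟩ := hno x hxC
      filter_upwards [(h.isOpen_left c').mem_nhds hxc'] with t ht
      rintro ⟨htC, ht0⟩
      exact h.asymm _ _ ht0 (h.const hCp htC hc' hc₀ ht)
    · have hx0 : R x c₀ := by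
        refine (h.conn x c₀ (by rintro rfl; exact hxC hc₀)).resolve_right fun h' => hx ⟨hxC, h'⟩
      filter_upwards [(h.isOpen_left c₀).mem_nhds hx0] with t ht
      rintro ⟨-, ht0⟩
      exact h.asymm _ _ ht0 ht
  have hCA : C ⊆ (Cᶜ ∩ {x | R c₀ x})ᶜ := fun x hx hx' => hx'.1 hx
  have hAC : ∀ y ∈ (Cᶜ ∩ {x | R c₀ x})ᶜ, y ∉ C → ∀ c ∈ C, R y c := by
    intro y hy hyC c hc
    refine h.const hCp hyC hc₀ hc ?_
    exact (h.conn y c₀ (by rintro rfl; exact hyC hc₀)).resolve_right fun h' => hy ⟨hyC, h'⟩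
  obtain ⟨z, hzA, hz⟩ := hK.clopen h hclo.compl ⟨c₀, hCA hc₀⟩
  by_cases hzC : z ∈ C
  · obtain ⟨x, hxC, hzx⟩ := hno z hzC
    obtain ⟨y, hyA, h1, h2⟩ := hz x (hCA hxC)
    by_cases hyC : y ∈ C
    · rcases h1 with rfl | h1
      · rcases h2 with rfl | h2
        · exact h.irrefl _ hzx
        · exact h.asymm _ _ hzx h2
      · rcases h2 with rfl | h2
        · exact h.asymm _ _ hzx h1
        · exact h.asymm _ _ h2 (h.trans hCp hyC hzC hxC h1 hzx)
    · have := hAC y hyA hyC x hxC
      rcases h2 with rfl | h2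
      · exact hyC hxC
      · exact h.asymm _ _ this h2
  · obtain ⟨y, hyA, h1, h2⟩ := hz c₀ (hCA hc₀)
    by_cases hyC : y ∈ C
    · rcases h1 with rfl | h1
      · exact hzC hyC
      · exact h.asymm _ _ h1 (hAC z hzA hzC y hyC)
    · rcases h2 with rfl | h2
      · exact hyC hc₀
      · exact h.asymm _ _ h2 (hAC y hyA hyC c₀ hc₀)

theorem KingP.exists_min (hK : KingP X) (h : Tour R) (c₀ : X) :
    ∃ a ∈ connectedComponent c₀, ∀ c ∈ connectedComponent c₀, c = a ∨ R a c :=
  hK.exists_max h.flip c₀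

/-- In a king space which is regular and locally countably compact, components are compact. -/
theorem KingP.isCompact_component [T2Space X] [RegularSpace X] (hK : KingP X) (h : Tour R)
    (hX : LocSeqCl X) (c₀ : X) : IsCompact (connectedComponent c₀) := by
  set C := connectedComponent c₀ with hC
  have hCp : IsPreconnected C := isPreconnected_connectedComponent
  obtain ⟨b, hbC, hb⟩ := hK.exists_max h c₀
  obtain ⟨a, haC, ha⟩ := hK.exists_min h c₀
  rw [isCompact_iff_ultrafilter_le_nhds]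
  intro f hf
  by_contra hcon
  push Not at hcon
  have hCf : C ∈ f := le_principal_iff.1 hf
  have hsing : ∀ x ∈ C, ({x} : Set X) ∉ f := by
    intro x hx hxf
    refine hcon x hx ?_
    intro s hs
    exact mem_of_superset hxf (singleton_subset_iff.2 (mem_of_mem_nhds hs))
  -- openness of the lower part, for `R` and for the reverse of `R`
  have key : ∀ {R : X → X → Prop} (h : Tour R), ∀ x ∈ C, {c | R x c} ∈ f →
      ∃ E ∈ 𝓝 x, ∀ t ∈ E, t ∈ C → {c | R c t} ∉ f := by
    intro R h x hx hxf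
    obtain ⟨s, hs, hsf⟩ : ∃ s ∈ 𝓝 x, s ∉ f := by
      by_contra hc
      push Not at hc
      exact hcon x hx hc
    obtain ⟨M, hM, hMc, hMs, hMsub⟩ := hX.exists_subset hs
    set N := interior M with hN
    have hNx : x ∈ N := mem_interior_iff_mem_nhds.2 hM
    have hNf : N ∉ f := fun h' => hsf (mem_of_superset h' (interior_subset.trans hMsub))
    have hclN : closure N ⊆ M := closure_minimal interior_subset hMc
    have hfrc : IsClosed (frontier N) := isClosed_frontier
    have hfrs : SeqCl (frontier N) := hMs.mono hfrc (frontier_subset_closure.trans hclN)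
    have hdis : ∀ t ∈ N, t ∉ frontier N := by
      intro t ht ht'
      rw [isOpen_interior.frontier_eq] at ht'
      exact ht'.2 ht
    obtain ⟨E, hE, hEq⟩ := h.tube hX hfrs hfrc (hdis x hNx)
    refine ⟨E ∩ N, inter_mem hE (isOpen_interior.mem_nhds hNx), fun t ht htC htf => ?_⟩
    obtain ⟨c, ⟨hxc, hct⟩, hcC⟩ := f.nonempty_of_mem (inter_mem (inter_mem hxf htf) hCf)
    have hxt : R x t := h.trans hCp hx hcC htC hxc hct
    have hI := h.preconnected_interval hCp hx htC hxt
    have hIf : {y | (y ∈ C ∧ (y = x ∨ R x y)) ∧ (y = t ∨ R y t)} ∈ f := by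
      filter_upwards [hxf, htf, hCf] with y h1 h2 h3
      exact ⟨⟨h3, Or.inr h1⟩, Or.inr h2⟩
    have hnot : ¬ {y | (y ∈ C ∧ (y = x ∨ R x y)) ∧ (y = t ∨ R y t)} ⊆ N :=
      fun h' => hNf (mem_of_superset hIf h')
    obtain ⟨m', hm'I, hm'N⟩ := not_subset.1 hnot
    have hfr : ({y | (y ∈ C ∧ (y = x ∨ R x y)) ∧ (y = t ∨ R y t)} ∩ frontier N).Nonempty := by
      by_contra hemp
      rw [not_nonempty_iff_eq_empty] at hemp
      have hcov : {y | (y ∈ C ∧ (y = x ∨ R x y)) ∧ (y = t ∨ R y t)} ⊆ N ∪ (closure N)ᶜ := by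
        intro y hy
        by_cases hyN : y ∈ N
        · exact Or.inl hyN
        · right
          intro hyc
          have : y ∈ frontier N := by
            rw [isOpen_interior.frontier_eq]
            exact ⟨hyc, hyN⟩
          exact (Set.ext_iff.1 hemp y).1 ⟨hy, this⟩
      obtain ⟨y, -, hy1, hy2⟩ := hI N (closure N)ᶜ isOpen_interior isClosed_closure.isOpen_compl
        hcov ⟨x, ⟨⟨hx, Or.inl rfl⟩, Or.inr hxt⟩, hNx⟩
        ⟨m', hm'I, (hcov hm'I).resolve_left hm'N⟩
      exact hy2 (subset_closure hy1)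
    obtain ⟨m, ⟨⟨-, hm1⟩, hm2⟩, hmfr⟩ := hfr
    have hxm : R x m := hm1.resolve_left (by rintro rfl; exact hdis _ hNx hmfr)
    have hmt : R m t := hm2.resolve_left (by rintro rfl; exact hdis _ ht.2 hmfr)
    exact h.asymm _ _ hxm ((hEq t ht.1 m hmfr).1 hmt)
  have hdich : ∀ x ∈ C, {c | R x c} ∈ f ∨ {c | R c x} ∈ f := by
    intro x hx
    have h1 : ({x} ∪ ({c | R x c} ∪ {c | R c x}) : Set X) ∈ f := by
      refine mem_of_superset univ_mem fun c _ => ?_
      by_cases hcx : c = x
      · exact Or.inl hcx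
      · exact Or.inr (h.conn x c (Ne.symm hcx))
    rcases Ultrafilter.union_mem_iff.1 h1 with h2 | h2
    · exact absurd h2 (hsing x hx)
    · exact Ultrafilter.union_mem_iff.1 h2
  -- two open sets separating `C`
  have hexcl : ∀ x, ¬ ({c | R x c} ∈ f ∧ {c | R c x} ∈ f) := by
    rintro x ⟨h1, h2⟩
    obtain ⟨c, hc1, hc2⟩ := f.nonempty_of_mem (inter_mem h1 h2)
    exact h.asymm _ _ hc1 hc2
  set u : Set X := {x | ∃ E, IsOpen E ∧ x ∈ E ∧ ∀ t ∈ E, t ∈ C → {c | R c t} ∉ f} with hu
  set v : Set X := {x | ∃ E, IsOpen E ∧ x ∈ E ∧ ∀ t ∈ E, t ∈ C → {c | R t c} ∉ f} with hv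
  have huo : IsOpen u := by
    rw [isOpen_iff_mem_nhds]
    rintro x ⟨E, hE, hxE, hEt⟩
    exact mem_of_superset (hE.mem_nhds hxE) fun y hy => ⟨E, hE, hy, hEt⟩
  have hvo : IsOpen v := by
    rw [isOpen_iff_mem_nhds]
    rintro x ⟨E, hE, hxE, hEt⟩
    exact mem_of_superset (hE.mem_nhds hxE) fun y hy => ⟨E, hE, hy, hEt⟩
  have hmu : ∀ x ∈ C, {c | R x c} ∈ f → x ∈ u := by
    intro x hx hxf
    obtain ⟨E, hE, hEt⟩ := key h x hx hxf
    obtain ⟨E', hE'E, hE', hxE'⟩ := mem_nhds_iff.1 hE
    exact ⟨E', hE', hxE', fun t ht => hEt t (hE'E ht)⟩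
  have hmv : ∀ x ∈ C, {c | R c x} ∈ f → x ∈ v := by
    intro x hx hxf
    obtain ⟨E, hE, hEt⟩ := key h.flip x hx hxf
    obtain ⟨E', hE'E, hE', hxE'⟩ := mem_nhds_iff.1 hE
    exact ⟨E', hE', hxE', fun t ht => hEt t (hE'E ht)⟩
  have hae : {c | R a c} ∈ f := by
    have h1 : ({a} ∪ {c | R a c} : Set X) ∈ f := mem_of_superset hCf fun c hc => ha c hc
    exact (Ultrafilter.union_mem_iff.1 h1).resolve_left (hsing a haC)
  have hbe : {c | R c b} ∈ f := by
    have h1 : ({b} ∪ {c | R c b} : Set X) ∈ f := mem_of_superset hCf fun c hc => hb c hc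
    exact (Ultrafilter.union_mem_iff.1 h1).resolve_left (hsing b hbC)
  obtain ⟨x, hxC, ⟨E₁, -, hx1, h1⟩, ⟨E₂, -, hx2, h2⟩⟩ := hCp u v huo hvo
    (fun x hx => (hdich x hx).imp (hmu x hx) (hmv x hx)) ⟨a, haC, hmu a haC hae⟩
    ⟨b, hbC, hmv b hbC hbe⟩
  rcases hdich x hxC with h3 | h3
  · exact h2 x hx2 hxC h3
  · exact h1 x hx1 hxC h3

/-- One-sided separation of a component from a countably compact set. -/
theorem KingP.exists_clopen_aux [RegularSpace X] (hK : KingP X) (h : Tour R) (hX : LocSeqCl X)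
    (c₀ : X) {K : Set X} (hKs : SeqCl K) (hKc : IsClosed K)
    (hKC : Disjoint K (connectedComponent c₀)) :
    ∃ A : Set X, IsClopen A ∧ connectedComponent c₀ ⊆ A ∧ ∀ k ∈ K, R k c₀ → k ∉ A := by
  set C := connectedComponent c₀ with hC
  have hCp : IsPreconnected C := isPreconnected_connectedComponent
  have hc₀ : c₀ ∈ C := mem_connectedComponent
  obtain ⟨a, haC, ha⟩ := hK.exists_min h c₀
  have haK : a ∉ K := fun h' => disjoint_left.1 hKC h' haC
  obtain ⟨E, hE, hEq⟩ := h.tube hX hKs hKc haK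
  have hka : ∀ k ∈ K, R k c₀ → R k a := fun k hk hk0 =>
    h.const hCp (disjoint_left.1 hKC hk) hc₀ haC hk0
  by_cases hex : ∃ t ∈ E, R t a
  · obtain ⟨t, htE, hta⟩ := hex
    have htC : t ∉ C := by
      intro htC
      rcases ha t htC with rfl | h1
      · exact h.irrefl _ hta
      · exact h.asymm _ _ h1 hta
    obtain ⟨V, hV, htV, hcV⟩ := h.exists_clopen htC
    have hCV : Disjoint C V := by
      refine disjoint_left.2 fun x hx hxV => hcV ?_
      exact hCp.subset_isClopen hV ⟨x, hx, hxV⟩ hc₀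
    refine ⟨{y | R t y} ∩ Vᶜ, ⟨?_, (h.isOpen_right t).inter hV.compl.isOpen⟩,
      fun c hc => ⟨h.const hCp htC haC hc hta, disjoint_left.1 hCV hc⟩, fun k hk hk0 hkA => ?_⟩
    · have : {y | R t y} ∩ Vᶜ = {y | y = t ∨ R t y} ∩ Vᶜ := by
        ext y
        constructor
        · rintro ⟨h1, h2⟩
          exact ⟨Or.inr h1, h2⟩
        · rintro ⟨rfl | h1, h2⟩
          · exact absurd htV h2
          · exact ⟨h1, h2⟩
      rw [this]
      exact (h.isClosed_right t).inter hV.compl.isClosed
    · exact h.asymm _ _ hkA.1 ((hEq t htE k hk).2 (hka k hk hk0))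
  · push Not at hex
    refine ⟨{y | y = a ∨ R a y}, ⟨h.isClosed_right a, ?_⟩, fun c hc => ha c hc,
      fun k hk hk0 hkA => ?_⟩
    · rw [isOpen_iff_mem_nhds]
      rintro y (rfl | hy)
      · filter_upwards [hE] with t ht
        by_cases hta : t = y
        · exact Or.inl hta
        · exact Or.inr ((h.conn y t (Ne.symm hta)).resolve_right (hex t ht))
      · filter_upwards [(h.isOpen_right a).mem_nhds hy] with t ht
        exact Or.inr ht
    · rcases hkA with rfl | h1
      · exact haK hk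
      · exact h.asymm _ _ h1 (hka k hk hk0)

/-- Small countably compact clopen neighbourhoods of components. -/
theorem KingP.exists_small [T2Space X] [RegularSpace X] (hK : KingP X) (h : Tour R)
    (hX : LocSeqCl X) (c₀ : X) {O : Set X} (hO : IsOpen O) (hCO : connectedComponent c₀ ⊆ O) :
    ∃ V : Set X, IsClopen V ∧ SeqCl V ∧ connectedComponent c₀ ⊆ V ∧ V ⊆ O := by
  set C := connectedComponent c₀ with hC
  have hCp : IsPreconnected C := isPreconnected_connectedComponent
  have hc₀ : c₀ ∈ C := mem_connectedComponent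
  -- a countably compact closed neighbourhood of `C` in `O`
  obtain ⟨M, hMC, hMc, hMs, hMO⟩ : ∃ M : Set X, C ⊆ interior M ∧ IsClosed M ∧ SeqCl M ∧
      M ⊆ O := by
    have hcomp := hK.isCompact_component h hX c₀
    have hloc : ∀ c ∈ C, ∃ M ∈ 𝓝 c, IsClosed M ∧ SeqCl M ∧ M ⊆ O := fun c hc =>
      hX.exists_subset (hO.mem_nhds (hCO hc))
    choose! M hM hMc hMs hMO using hloc
    obtain ⟨t, htC, hcov⟩ := hcomp.elim_nhds_subcover (fun c => interior (M c))
      fun c hc => interior_mem_nhds.2 (hM c hc)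
    have hcl : ∀ s : Finset X, (∀ c ∈ s, c ∈ C) → IsClosed (⋃ c ∈ s, M c) ∧
        SeqCl (⋃ c ∈ s, M c) := by
      classical
      intro s
      induction s using Finset.induction_on with
      | empty =>
        intro _
        simp only [Finset.notMem_empty, iUnion_of_empty, iUnion_empty]
        exact ⟨isClosed_empty, fun u hu => absurd (hu 0) (notMem_empty _)⟩
      | insert a s ha ih =>
        intro hs
        have hh := ih fun c hc => hs c (Finset.mem_insert_of_mem hc)
        rw [Finset.set_biUnion_insert]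
        exact ⟨(hMc a (hs a (Finset.mem_insert_self _ _))).union hh.1,
          (hMs a (hs a (Finset.mem_insert_self _ _))).union hh.2⟩
    refine ⟨⋃ c ∈ t, M c, hcov.trans ?_, (hcl t htC).1, (hcl t htC).2,
      iUnion₂_subset fun c hc => hMO c (htC c hc)⟩
    exact iUnion₂_subset fun c hc => interior_mono (subset_biUnion_of_mem hc)
  set N := interior M with hN
  have hclN : closure N ⊆ M := closure_minimal interior_subset hMc
  have hfrc : IsClosed (frontier N) := isClosed_frontier
  have hfrs : SeqCl (frontier N) := hMs.mono hfrc (frontier_subset_closure.trans hclN)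
  have hdis : Disjoint (frontier N) C := by
    refine disjoint_left.2 fun x hx hxC => ?_
    rw [isOpen_interior.frontier_eq] at hx
    exact hx.2 (hMC hxC)
  obtain ⟨A₁, hA₁, hCA₁, h1⟩ := hK.exists_clopen_aux h hX c₀ hfrs hfrc hdis
  obtain ⟨A₂, hA₂, hCA₂, h2⟩ := hK.exists_clopen_aux h.flip hX c₀ hfrs hfrc hdis
  have hfr : ∀ k ∈ frontier N, k ∉ A₁ ∩ A₂ := by
    rintro k hk ⟨hk1, hk2⟩
    rcases h.conn k c₀ (by rintro rfl; exact disjoint_left.1 hdis hk hc₀) with h3 | h3
    · exact h1 k hk h3 hk1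
    · exact h2 k hk h3 hk2
  have heq : A₁ ∩ A₂ ∩ N = A₁ ∩ A₂ ∩ closure N := by
    refine subset_antisymm (inter_subset_inter_right _ subset_closure) fun x hx => ⟨hx.1, ?_⟩
    by_contra hxN
    exact hfr x (by rw [isOpen_interior.frontier_eq]; exact ⟨hx.2, hxN⟩) hx.1
  have hclo : IsClosed (A₁ ∩ A₂ ∩ N) := by
    rw [heq]
    exact (hA₁.isClosed.inter hA₂.isClosed).inter isClosed_closure
  refine ⟨A₁ ∩ A₂ ∩ N, ⟨hclo, (hA₁.isOpen.inter hA₂.isOpen).inter isOpen_interior⟩,
    hMs.mono hclo (inter_subset_right.trans interior_subset),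
    fun x hx => ⟨⟨hCA₁ hx, hCA₂ hx⟩, hMC hx⟩,
    inter_subset_right.trans (interior_subset.trans hMO)⟩

end Pool.Agent.H110.King
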