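import Pool.Agent.H110.King.Comp

/-! # Regular locally countably compact king spaces with a continuous weak selection are compact -/

set_option autoImplicit false

namespace Pool.Agent.H110.King

open Set Topology Filter

variable {X : Type*} [TopologicalSpace X] {R : X → X → Prop}

/-- In a king space locally constant maps have finite range. -/
theorem KingP.finite_range' {α : Type*} (hK : KingP X) (h : Tour R) {g : X → α}
    (hg : IsLocallyConstant g) : (range g).Finite := by
  classical
  by_contra hinf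
  let e : ℕ ↪ range g := Set.Infinite.natEmbedding _ hinf
  let F : α → ℕ := fun a => if hn : ∃ n, (e n : α) = a then hn.choose else 0
  have hF : ∀ n, F (e n) = n := by
    intro n
    have hn : ∃ m, (e m : α) = (e n : α) := ⟨n, rfl⟩
    have : F (e n) = hn.choose := dif_pos hn
    rw [this]
    exact e.injective (Subtype.ext hn.choose_spec)
  have hfin := hK.finite_range h (f := F ∘ g) (hg.comp F).continuous
  refine infinite_univ (α := ℕ) (hfin.subset fun n _ => ?_)
  obtain ⟨x, hx⟩ := (e n).2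
  exact ⟨x, by rw [Function.comp_apply, hx, hF]⟩

open Classical in
/-- The trace map of `R` on a set `U`. -/
noncomputable def trace (R : X → X → Prop) (U : Set X) (y : X) : Option (Set X) :=
  if y ∈ U then none else some {u | u ∈ U ∧ R u y}

theorem trace_of_notMem {U : Set X} {y : X} (hy : y ∉ U) :
    trace R U y = some {u | u ∈ U ∧ R u y} := if_neg hy

theorem trace_of_mem {U : Set X} {y : X} (hy : y ∈ U) : trace R U y = none := if_pos hy

theorem Tour.trace_locConst [RegularSpace X] (h : Tour R) (hX : LocSeqCl X) {U : Set X}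
    (hU : IsClopen U) (hUs : SeqCl U) : IsLocallyConstant (trace R U) := by
  rw [IsLocallyConstant.iff_eventually_eq]
  intro y
  by_cases hy : y ∈ U
  · filter_upwards [hU.isOpen.mem_nhds hy] with t ht
    rw [trace_of_mem hy, trace_of_mem ht]
  · obtain ⟨E, hE, hEq⟩ := h.tube hX hUs hU.isClosed hy
    filter_upwards [hE, hU.compl.isOpen.mem_nhds hy] with t ht htU
    rw [trace_of_notMem hy, trace_of_notMem htU]
    congr 1
    ext u
    constructor
    · rintro ⟨h1, h2⟩
      exact ⟨h1, (hEq t ht u h1).1 h2⟩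
    · rintro ⟨h1, h2⟩
      exact ⟨h1, (hEq t ht u h1).2 h2⟩

/-- For a countably compact clopen set `U` outside the ultrafilter, the comparison of points of
`U` with the points of some member of the ultrafilter is constant. -/
theorem KingP.exists_tail [RegularSpace X] (hK : KingP X) (h : Tour R) (hX : LocSeqCl X)
    (f : Ultrafilter X) {U : Set X} (hU : IsClopen U) (hUs : SeqCl U) (hUf : U ∉ f) :
    ∃ W : Set X, IsClopen W ∧ W ∈ f ∧ Disjoint W U ∧
      ∀ u ∈ U, ∀ y ∈ W, (R u y ↔ {y | R u y} ∈ f) := by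
  have hlc := h.trace_locConst hX hU hUs
  have hfin := hK.finite_range' h hlc
  obtain ⟨v, -, hv⟩ := Ultrafilter.eq_pure_of_finite_mem (f := f.map (trace R U)) hfin (by
    rw [Ultrafilter.mem_map]
    exact mem_of_superset univ_mem fun x _ => mem_range_self x)
  have hvf : trace R U ⁻¹' {v} ∈ f := by
    rw [← Ultrafilter.mem_map, hv]
    exact mem_singleton v
  have hdis : Disjoint (trace R U ⁻¹' {v}) U := by
    rcases v with _ | S
    · exfalso
      refine hUf (mem_of_superset hvf fun y hy => ?_)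
      by_contra hyU
      have h1 : trace R U y = none := hy
      rw [trace_of_notMem hyU] at h1
      exact absurd h1 (by simp)
    · refine disjoint_left.2 fun y hy hyU => ?_
      have h1 : trace R U y = some S := hy
      rw [trace_of_mem hyU] at h1
      exact absurd h1 (by simp)
  refine ⟨trace R U ⁻¹' {v}, hlc.isClopen_fiber v, hvf, hdis, fun u hu y hy => ?_⟩
  have hval : ∀ t ∈ trace R U ⁻¹' {v}, (R u t ↔ R u y) := by
    intro t ht
    have h1 : trace R U t = trace R U y := by
      rw [show trace R U t = v from ht, show trace R U y = v from hy]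
    rw [trace_of_notMem (disjoint_left.1 hdis ht), trace_of_notMem (disjoint_left.1 hdis hy)] at h1
    have h2 := Option.some.inj h1
    constructor
    · intro h3
      exact ((Set.ext_iff.1 h2 u).1 ⟨hu, h3⟩).2
    · intro h3
      exact ((Set.ext_iff.1 h2 u).2 ⟨hu, h3⟩).2
  constructor
  · intro h1
    exact mem_of_superset hvf fun t ht => (hval t ht).2 h1
  · intro h1
    obtain ⟨t, ht1, ht2⟩ := f.nonempty_of_mem (inter_mem hvf h1)
    exact (hval t ht1).1 ht2

/-- The set of points which beat almost all points is clopen. -/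
theorem KingP.isClopen_beat [RegularSpace X] (hK : KingP X) (h : Tour R) (hX : LocSeqCl X)
    (f : Ultrafilter X)
    (hH : ∀ x : X, ∃ U : Set X, IsClopen U ∧ SeqCl U ∧ x ∈ U ∧ U ∉ f) :
    IsClopen {x | {y | R x y} ∈ f} := by
  have key : ∀ x, ∃ E ∈ 𝓝 x, ∀ t ∈ E, ({y | R t y} ∈ f ↔ {y | R x y} ∈ f) := by
    intro x
    obtain ⟨U, hU, hUs, hxU, hUf⟩ := hH x
    obtain ⟨W, -, hWf, hd, hW⟩ := hK.exists_tail h hX f hU hUs hUf
    obtain ⟨y₀, hy₀⟩ := f.nonempty_of_mem hWf
    have hne : ∀ u ∈ U, u ≠ y₀ := by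
      rintro u hu rfl
      exact disjoint_left.1 hd hy₀ hu
    rcases h.conn x y₀ (hne x hxU) with h1 | h1
    · refine ⟨U ∩ {u | R u y₀}, inter_mem (hU.isOpen.mem_nhds hxU)
        ((h.isOpen_left y₀).mem_nhds h1), fun t ht => ?_⟩
      rw [← hW t ht.1 y₀ hy₀, ← hW x hxU y₀ hy₀]
      exact ⟨fun _ => h1, fun _ => ht.2⟩
    · refine ⟨U ∩ {u | R y₀ u}, inter_mem (hU.isOpen.mem_nhds hxU)
        ((h.isOpen_right y₀).mem_nhds h1), fun t ht => ?_⟩
      rw [← hW t ht.1 y₀ hy₀, ← hW x hxU y₀ hy₀]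
      exact ⟨fun h2 => absurd h2 (h.asymm _ _ ht.2), fun h2 => absurd h2 (h.asymm _ _ h1)⟩
  constructor
  · rw [← isOpen_compl_iff, isOpen_iff_mem_nhds]
    intro x hx
    obtain ⟨E, hE, hEt⟩ := key x
    filter_upwards [hE] with t ht h1
    exact hx ((hEt t ht).1 h1)
  · rw [isOpen_iff_mem_nhds]
    intro x hx
    obtain ⟨E, hE, hEt⟩ := key x
    filter_upwards [hE] with t ht
    exact (hEt t ht).2 hx

/-- The main step: an ultrafilter without limit cannot concentrate on the points which beat almost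
all points. -/
theorem KingP.main_aux [RegularSpace X] (hK : KingP X) (h : Tour R) (hX : LocSeqCl X)
    (f : Ultrafilter X)
    (hH : ∀ x : X, ∃ U : Set X, IsClopen U ∧ SeqCl U ∧ x ∈ U ∧ U ∉ f)
    (hL : {x | {y | R x y} ∈ f} ∈ f) : False := by
  set L : Set X := {x | {y | R x y} ∈ f} with hLdef
  have hLc : IsClopen L := hK.isClopen_beat h hX f hH
  obtain ⟨z, hzL, hz⟩ := hK.clopen h hLc (f.nonempty_of_mem hL)
  obtain ⟨U, hU, hUs, hzU, hUf⟩ := hH z
  obtain ⟨W, hWc, hWf, hWU, hW⟩ := hK.exists_tail h hX f hU hUs hUf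
  have hzW : ∀ w ∈ W, R z w := fun w hw => (hW z hzU w hw).2 hzL
  set D : Set X := L ∩ Wᶜ with hD
  have hDc : IsClopen D := hLc.inter hWc.compl
  have hDf : D ∉ f := fun h' => by
    obtain ⟨x, hx1, hx2⟩ := f.nonempty_of_mem (inter_mem h' hWf)
    exact hx1.2 hx2
  -- small clopen sets in `D`
  have hsm : ∀ p ∈ D, ∃ G : Set X, IsClopen G ∧ SeqCl G ∧ p ∈ G ∧ G ⊆ D := by
    intro p hp
    obtain ⟨V, hV, hVs, hpV, -⟩ := hH p
    exact ⟨V ∩ D, hV.inter hDc, hVs.mono (hV.inter hDc).isClosed inter_subset_left, ⟨hpV, hp⟩,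
      inter_subset_right⟩
  have hG : ∀ G : Set X, IsClopen G → SeqCl G → G ⊆ D → {w | ∀ y ∈ G, R y w} ∈ f := by
    intro G hGc hGs hGD
    obtain ⟨W₁, -, hW₁f, -, hW₁⟩ := hK.exists_tail h hX f hGc hGs
      fun h' => hDf (mem_of_superset h' hGD)
    exact mem_of_superset hW₁f fun w hw y hy => (hW₁ y hy w hw).2 (hGD hy).1
  have hclaim : ∃ x ∈ W ∩ L, ∀ y ∈ D, R y x := by
    by_contra hcon
    have hbad : ∀ x ∈ W ∩ L, ∃ y ∈ D, R x y := by
      intro x hx
      by_contra hc
      push Not at hc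
      refine hcon ⟨x, hx, fun y hy => ?_⟩
      refine (h.conn y x ?_).resolve_right (hc y hy)
      rintro rfl
      exact hy.2 hx.1
    -- one step of the construction
    have hstep : ∀ G : {G : Set X // IsClopen G ∧ SeqCl G ∧ G ⊆ D},
        ∃ (G' : {G : Set X // IsClopen G ∧ SeqCl G ∧ G ⊆ D}) (x y : X), x ∉ D ∧ G.1 ⊆ G'.1 ∧
          (∀ t ∈ G.1, R t x) ∧ (∀ t ∈ G'.1, t ∉ G.1 → R x t) ∧ y ∈ G'.1 ∧ y ∉ G.1 := by
      rintro ⟨G, hGc, hGs, hGD⟩
      obtain ⟨x, ⟨hxW, hxL⟩, hxG⟩ :=
        f.nonempty_of_mem (inter_mem (inter_mem hWf hL) (hG G hGc hGs hGD))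
      obtain ⟨y, hyD, hxy⟩ := hbad x ⟨hxW, hxL⟩
      obtain ⟨V, hV, hVs, hyV, hVD⟩ := hsm y hyD
      have hxD : x ∉ D := fun h' => h'.2 hxW
      have hclo : IsClopen (V ∩ {t | R x t}) := by
        refine ⟨?_, hV.isOpen.inter (h.isOpen_right x)⟩
        have : V ∩ {t | R x t} = V ∩ {t | t = x ∨ R x t} := by
          ext t
          constructor
          · rintro ⟨h1, h2⟩
            exact ⟨h1, Or.inr h2⟩
          · rintro ⟨h1, rfl | h2⟩
            · exact absurd (hVD h1) hxD
            · exact ⟨h1, h2⟩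
        rw [this]
        exact hV.isClosed.inter (h.isClosed_right x)
      refine ⟨⟨G ∪ (V ∩ {t | R x t}), hGc.union hclo,
        hGs.union (hVs.mono hclo.isClosed inter_subset_left),
        union_subset hGD (inter_subset_left.trans hVD)⟩, x, y, hxD, subset_union_left, hxG,
        fun t ht htG => (ht.resolve_left htG).2, Or.inr ⟨hyV, hxy⟩, fun hyG => ?_⟩
      exact h.asymm _ _ hxy (hxG y hyG)
    choose nx xx yy hxD hsub hbeat hbeat' hyin hynot using hstep
    let G : ℕ → {G : Set X // IsClopen G ∧ SeqCl G ∧ G ⊆ D} := fun n =>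
      Nat.rec ⟨∅, isClopen_empty, fun u hu => absurd (hu 0) (notMem_empty _), empty_subset _⟩
        (fun _ g => nx g) n
    have hGs : ∀ n, G (n + 1) = nx (G n) := fun n => rfl
    have hG0 : (G 0).1 = ∅ := rfl
    have hmono : ∀ i j, i ≤ j → (G i).1 ⊆ (G j).1 := by
      intro i j hij
      induction j, hij using Nat.le_induction with
      | base => exact subset_rfl
      | succ j hj ih => rw [hGs]; exact ih.trans (hsub _)
    have hy1 : ∀ n, yy (G n) ∈ (G (n + 1)).1 := fun n => hGs n ▸ hyin (G n)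
    have hb2 : ∀ n, ∀ t ∈ (G (n + 1)).1, t ∉ (G n).1 → R (xx (G n)) t := by
      intro n t ht htn
      rw [hGs] at ht
      exact hbeat' (G n) t ht htn
    -- the first index
    have hfirst : ∀ N t, t ∉ (G N).1 → ∀ m, t ∈ (G m).1 → ∃ n, N ≤ n ∧ t ∈ (G (n + 1)).1 ∧
        t ∉ (G n).1 := by
      intro N t htN m htm
      classical
      have hex : ∃ m, t ∈ (G m).1 := ⟨m, htm⟩
      have h0 : Nat.find hex ≠ 0 := by
        intro h0
        have := Nat.find_spec hex
        rw [h0, hG0] at this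
        exact this
      obtain ⟨n, hn⟩ := Nat.exists_eq_succ_of_ne_zero h0
      refine ⟨n, ?_, ?_, Nat.find_min hex (by omega)⟩
      · by_contra hlt
        push Not at hlt
        have h1 := Nat.find_spec hex
        rw [hn] at h1
        exact htN (hmono _ _ hlt h1)
      · have h1 := Nat.find_spec hex
        rwa [hn] at h1
    by_cases hclosed : IsClosed (⋃ n, (G n).1)
    · -- infinite clopen partition
      classical
      let g : X → ℕ := fun t => if ht : ∃ n, t ∈ (G n).1 then Nat.find ht + 1 else 0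
      have hgval : ∀ n t, t ∈ (G (n + 1)).1 → t ∉ (G n).1 → g t = n + 2 := by
        intro n t h1 h2
        have hex : ∃ m, t ∈ (G m).1 := ⟨n + 1, h1⟩
        have h3 : Nat.find hex = n + 1 := by
          rw [Nat.find_eq_iff]
          exact ⟨h1, fun m hm h4 => h2 (hmono m n (by omega) h4)⟩
        have : g t = Nat.find hex + 1 := dif_pos hex
        rw [this, h3]
      have hg : IsLocallyConstant g := by
        rw [IsLocallyConstant.iff_eventually_eq]
        intro t
        by_cases ht : ∃ m, t ∈ (G m).1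
        · obtain ⟨m, hm⟩ := ht
          obtain ⟨n, -, h1, h2⟩ := hfirst 0 t (by rw [hG0]; exact notMem_empty _) m hm
          filter_upwards [(G (n + 1)).2.1.isOpen.mem_nhds h1,
            (G n).2.1.compl.isOpen.mem_nhds h2] with s hs1 hs2
          rw [hgval n t h1 h2, hgval n s hs1 hs2]
        · have h1 : t ∈ (⋃ n, (G n).1)ᶜ := fun h' => ht (mem_iUnion.1 h')
          filter_upwards [hclosed.isOpen_compl.mem_nhds h1] with s hs
          have h2 : g t = 0 := dif_neg ht
          have h3 : g s = 0 := dif_neg fun h' => hs (mem_iUnion.2 h')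
          rw [h2, h3]
      have hfin := hK.finite_range' h hg
      have hinj : Function.Injective (fun n : ℕ => n + 2) := fun a b hab => by
        simpa using hab
      refine (infinite_range_of_injective hinj) (hfin.subset ?_)
      rintro _ ⟨n, rfl⟩
      exact ⟨yy (G n), hgval n _ (hy1 n) (hynot (G n))⟩
    · -- a limit point
      obtain ⟨p, hpcl, hpn⟩ : ∃ p, p ∈ closure (⋃ n, (G n).1) ∧ p ∉ ⋃ n, (G n).1 := by
        by_contra hc
        push Not at hc
        exact hclosed (isClosed_of_closure_subset hc)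
      have hpD : p ∈ D := (closure_minimal (iUnion_subset fun n => (G n).2.2.2) hDc.isClosed) hpcl
      obtain ⟨Q, hQc, hQs, hpQ, hQD⟩ := hsm p hpD
      have hfin := hK.finite_range' h (h.trace_locConst hX hQc hQs)
      have hI : ∀ N, ∃ n, N ≤ n ∧ ∃ t ∈ Q, t ∈ (G (n + 1)).1 ∧ t ∉ (G n).1 := by
        intro N
        have hop : IsOpen (Q ∩ ((G N).1)ᶜ) := hQc.isOpen.inter (G N).2.1.compl.isOpen
        obtain ⟨t, ⟨htQ, htN⟩, htU⟩ := mem_closure_iff.1 hpcl _ hop
          ⟨hpQ, fun h' => hpn (mem_iUnion.2 ⟨N, h'⟩)⟩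
        obtain ⟨m, hm⟩ := mem_iUnion.1 htU
        obtain ⟨n, hn, h1, h2⟩ := hfirst N t htN m hm
        exact ⟨n, hn, t, htQ, h1, h2⟩
      have hIinf : {n | ∃ t ∈ Q, t ∈ (G (n + 1)).1 ∧ t ∉ (G n).1}.Infinite := by
        rw [infinite_iff_exists_gt]
        intro N
        obtain ⟨n, hn, ht⟩ := hI (N + 1)
        exact ⟨n, ht, by omega⟩
      have hxQ : ∀ n, xx (G n) ∉ Q := fun n h' => hxD (G n) (hQD h')
      refine hIinf ?_
      refine Set.Finite.of_finite_image (f := fun n => trace R Q (xx (G n)))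
        (hfin.subset (by rintro _ ⟨n, -, rfl⟩; exact mem_range_self _)) ?_
      have hlt : ∀ n ∈ {n | ∃ t ∈ Q, t ∈ (G (n + 1)).1 ∧ t ∉ (G n).1}, ∀ m, n < m →
          trace R Q (xx (G n)) ≠ trace R Q (xx (G m)) := by
        rintro n ⟨t, htQ, ht1, ht2⟩ m hnm heq
        rw [trace_of_notMem (hxQ n), trace_of_notMem (hxQ m)] at heq
        have h1 := Option.some.inj heq
        have h2 : R t (xx (G m)) := hbeat (G m) t (hmono _ _ hnm ht1)
        have h3 : R t (xx (G n)) := ((Set.ext_iff.1 h1 t).2 ⟨htQ, h2⟩).2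
        exact h.asymm _ _ h3 (hb2 n t ht1 ht2)
      intro n hn m hm heq
      rcases lt_trichotomy n m with h1 | h1 | h1
      · exact absurd heq (hlt n hn m h1)
      · exact h1
      · exact absurd heq.symm (hlt m hm n h1)
  obtain ⟨x, ⟨hxW, hxL⟩, hx⟩ := hclaim
  obtain ⟨y, hyL, h1, h2⟩ := hz x hxL
  by_cases hyW : y ∈ W
  · rcases h1 with rfl | h1
    · exact h.irrefl _ (hzW _ hyW)
    · exact h.asymm _ _ h1 (hzW y hyW)
  · have h3 := hx y ⟨hyL, hyW⟩
    rcases h2 with rfl | h2
    · exact hyW hxW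
    · exact h.asymm _ _ h2 h3

/-- A regular Hausdorff, locally countably compact king space with a continuous weak selection is
compact. -/
theorem KingP.compactSpace [T2Space X] [RegularSpace X] (hK : KingP X) (h : Tour R)
    (hX : LocSeqCl X) : CompactSpace X := by
  rw [← isCompact_univ_iff, isCompact_iff_ultrafilter_le_nhds]
  intro f _
  by_contra hcon
  push Not at hcon
  have hH : ∀ x : X, ∃ U : Set X, IsClopen U ∧ SeqCl U ∧ x ∈ U ∧ U ∉ f := by
    intro x
    have hcomp := hK.isCompact_component h hX x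
    have hO : ∀ c : X, ∃ O : Set X, IsOpen O ∧ c ∈ O ∧ O ∉ f := by
      intro c
      by_contra hc
      push Not at hc
      refine hcon c (mem_univ c) fun s hs => ?_
      obtain ⟨O, hOs, hO, hcO⟩ := mem_nhds_iff.1 hs
      exact mem_of_superset (hc O hO hcO) hOs
    choose O hOo hcO hOf using hO
    obtain ⟨t, -, hcov⟩ := hcomp.elim_nhds_subcover O fun c _ => (hOo c).mem_nhds (hcO c)
    have hUf : (⋃ c ∈ t, O c) ∉ f := by
      intro h'
      obtain ⟨c, -, hc⟩ := (Ultrafilter.finite_biUnion_mem_iff t.finite_toSet).1 h'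
      exact hOf c hc
    obtain ⟨V, hV, hVs, hCV, hVO⟩ := hK.exists_small h hX x
      (isOpen_biUnion fun c _ => hOo c) hcov
    exact ⟨V, hV, hVs, hCV mem_connectedComponent, fun h' => hUf (mem_of_superset h' hVO)⟩
  by_cases hL : {x | {y | R x y} ∈ f} ∈ f
  · exact hK.main_aux h hX f hH hL
  · refine hK.main_aux h.flip hX f hH ?_
    have h1 : {x | {y | R x y} ∈ f}ᶜ ∈ f := Ultrafilter.compl_mem_iff_notMem.2 hL
    refine mem_of_superset h1 fun x hx => ?_
    have h2 : {y | R x y}ᶜ ∈ f := Ultrafilter.compl_mem_iff_notMem.2 hx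
    have h3 : {x}ᶜ ∈ f := by
      rw [Ultrafilter.compl_mem_iff_notMem]
      intro h4
      refine hcon x (mem_univ x) fun s hs => ?_
      exact mem_of_superset h4 (singleton_subset_iff.2 (mem_of_mem_nhds hs))
    refine mem_of_superset (inter_mem h2 h3) fun y hy => ?_
    exact (h.conn x y fun h4 => hy.2 h4.symm).resolve_left hy.1

end Pool.Agent.H110.King
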