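import Pool.Agent.H110.King.Tube

/-! # Pseudocompact Tychonoff spaces with an open tournament are countably compact -/

set_option autoImplicit false

namespace Pool.Agent.H110.King

open Set Topology Filter

variable {X : Type*} [TopologicalSpace X] {R : X → X → Prop}

/-- `p` is an accumulation point of the sequence `G` of sets. -/
def Acc (G : ℕ → Set X) (p : X) : Prop := ∀ N ∈ 𝓝 p, ∃ᶠ n in atTop, (G n ∩ N).Nonempty

theorem Acc.of_comp {G : ℕ → Set X} {p : X} {φ : ℕ → ℕ} (hφ : Tendsto φ atTop atTop)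
    (hp : Acc (fun n => G (φ n)) p) : Acc G p := fun N hN => hφ.frequently (hp N hN)

theorem acc_closed {G : ℕ → Set X} {p : X} {F : Set X} (hp : Acc G p) (hF : IsClosed F)
    (hG : ∀ n, G n ⊆ F) : p ∈ F := by
  by_contra hpF
  obtain ⟨n, x, hx, hx'⟩ := (hp Fᶜ (hF.isOpen_compl.mem_nhds hpF)).exists
  exact hx' (hG n hx)

/-- In a pseudocompact completely regular space sequences of non-empty open sets accumulate. -/
theorem exists_acc [CompletelyRegularSpace X] (hX : IsPseudocompact X) (G : ℕ → Set X)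
    (hG : ∀ n, IsOpen (G n)) (hne : ∀ n, (G n).Nonempty) : ∃ p, Acc G p := by
  by_contra hcon
  simp only [Acc, not_exists, not_forall, exists_prop] at hcon
  have hlf : LocallyFinite G := by
    intro x
    obtain ⟨N, hN, hN'⟩ := hcon x
    refine ⟨N, hN, ?_⟩
    rw [Nat.frequently_atTop_iff_infinite, Set.not_infinite] at hN'
    exact hN'
  choose g hg using hne
  have hf : ∀ n, ∃ f : X → unitInterval, Continuous f ∧ f (g n) = 0 ∧ EqOn f 1 (G n)ᶜ := fun n =>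
    CompletelyRegularSpace.completely_regular (g n) (G n)ᶜ (hG n).isClosed_compl
      (fun hc => hc (hg n))
  choose f hfc hf0 hf1 using hf
  let F : ℕ → X → ℝ := fun n x => n * (1 - (f n x : ℝ))
  have hFc : ∀ n, Continuous (F n) := fun n =>
    continuous_const.mul (continuous_const.sub (continuous_subtype_val.comp (hfc n)))
  have hsupp : ∀ n, Function.support (F n) ⊆ G n := by
    intro n x hx
    by_contra hxG
    have := hf1 n hxG
    apply hx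
    simp only [F, this]
    simp
  have hlf' : LocallyFinite fun n => Function.support (F n) := hlf.subset hsupp
  have hnn : ∀ n x, 0 ≤ F n x := fun n x =>
    mul_nonneg (Nat.cast_nonneg n) (sub_nonneg.2 (f n x).2.2)
  obtain ⟨M, hM⟩ := hX (fun x => ∑ᶠ n, F n x) (continuous_finsum hFc hlf')
  obtain ⟨n, hn⟩ := exists_nat_gt M
  have h1 : F n (g n) ≤ ∑ᶠ m, F m (g n) :=
    single_le_finsum n (hlf'.point_finite (g n)) fun m => hnn m _
  have h2 : F n (g n) = n := by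
    simp only [F, hf0]
    simp
  have h3 := (le_abs_self _).trans (hM (g n))
  linarith

/-- A monotone sequence of sets has at most one accumulation point. -/
theorem Tour.acc_unique (h : Tour R) {G : ℕ → Set X}
    (hG : ∀ i j, i < j → ∀ x ∈ G i, ∀ y ∈ G j, R x y) {p q : X} (hp : Acc G p) (hq : Acc G q) :
    p = q := by
  have key : ∀ p q : X, Acc G p → Acc G q → ¬ R p q := by
    intro p q hp hq hpq
    obtain ⟨O, O', hO, hO', hpO, hqO, hR⟩ := h.exists_nhds hpq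
    obtain ⟨i, x, hx, hxO⟩ := (hq O' (hO'.mem_nhds hqO)).exists
    obtain ⟨j, hij, y, hy, hyO⟩ := (frequently_atTop.1 (hp O (hO.mem_nhds hpO))) (i + 1)
    exact h.asymm _ _ (hG i j hij x hx y hy) (hR _ hyO _ hxO)
  by_contra hne
  rcases h.conn p q hne with h1 | h1
  · exact key p q hp hq h1
  · exact key q p hq hp h1

theorem Tour.acc_eventually [CompletelyRegularSpace X] (hX : IsPseudocompact X) (h : Tour R)
    {G : ℕ → Set X} (hGo : ∀ n, IsOpen (G n)) (hne : ∀ n, (G n).Nonempty)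
    (hG : ∀ i j, i < j → ∀ x ∈ G i, ∀ y ∈ G j, R x y) {p : X} (hp : Acc G p) :
    ∀ N ∈ 𝓝 p, ∀ᶠ n in atTop, (G n ∩ N).Nonempty := by
  intro N hN
  by_contra hcon
  rw [not_eventually] at hcon
  obtain ⟨φ, hφ, hφN⟩ := extraction_of_frequently_atTop hcon
  obtain ⟨q, hq⟩ := exists_acc hX (fun n => G (φ n)) (fun n => hGo _) fun n => hne _
  have hpq : p = q := h.acc_unique hG hp (hq.of_comp hφ.tendsto_atTop)
  subst hpq
  obtain ⟨n, hn⟩ := (hq N hN).exists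
  exact hφN n hn

/-- One step of the recursion. -/
theorem Tour.step (h : Tour R) {x₀ : X} {N O₀ : Set X} (hN : IsOpen N) (hx₀ : x₀ ∈ N)
    (hO₀ : IsOpen O₀) (hd : Disjoint N O₀) (hRO : ∀ y ∈ O₀, R x₀ y)
    (hbad : ∃ a ∈ N, ∃ b ∈ O₀, ¬ R a b) :
    ∃ G H N' : Set X, IsOpen G ∧ IsOpen H ∧ IsOpen N' ∧ G.Nonempty ∧ H.Nonempty ∧ G ⊆ N ∧ H ⊆ O₀ ∧
      x₀ ∈ N' ∧ N' ⊆ N ∧ (∀ a ∈ H, ∀ b ∈ G, R a b) ∧ (∀ a ∈ N', ∀ b ∈ H, R a b) ∧
      ((∀ a ∈ G, ∀ b ∈ N', R a b) ∨ (∀ a ∈ N', ∀ b ∈ G, R a b)) := by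
  obtain ⟨u, hu, y, hy, huy⟩ := hbad
  have hne : y ≠ u := by
    rintro rfl
    exact disjoint_left.1 hd hu hy
  have hyu : R y u := (h.conn y u hne).resolve_right huy
  have hxy := hRO y hy
  have hux : u ≠ x₀ := by
    rintro rfl
    exact huy hxy
  obtain ⟨H₁, G₁, hH₁, hG₁, hyH₁, huG₁, hR₁⟩ := h.exists_nhds hyu
  obtain ⟨N₁, H₂, hN₁, hH₂, hxN₁, hyH₂, hR₂⟩ := h.exists_nhds hxy
  rcases h.conn u x₀ hux with h3 | h3
  · obtain ⟨G₂, N₂, hG₂, hN₂, huG₂, hxN₂, hR₃⟩ := h.exists_nhds h3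
    refine ⟨G₁ ∩ G₂ ∩ N, H₁ ∩ H₂ ∩ O₀, N₁ ∩ N₂ ∩ N, (hG₁.inter hG₂).inter hN,
      (hH₁.inter hH₂).inter hO₀, (hN₁.inter hN₂).inter hN, ⟨u, ⟨huG₁, huG₂⟩, hu⟩,
      ⟨y, ⟨hyH₁, hyH₂⟩, hy⟩, inter_subset_right, inter_subset_right, ⟨⟨hxN₁, hxN₂⟩, hx₀⟩,
      inter_subset_right, fun a ha b hb => hR₁ _ ha.1.1 _ hb.1.1,
      fun a ha b hb => hR₂ _ ha.1.1 _ hb.1.2, Or.inl fun a ha b hb => hR₃ _ ha.1.2 _ hb.1.2⟩
  · obtain ⟨N₂, G₂, hN₂, hG₂, hxN₂, huG₂, hR₃⟩ := h.exists_nhds h3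
    refine ⟨G₁ ∩ G₂ ∩ N, H₁ ∩ H₂ ∩ O₀, N₁ ∩ N₂ ∩ N, (hG₁.inter hG₂).inter hN,
      (hH₁.inter hH₂).inter hO₀, (hN₁.inter hN₂).inter hN, ⟨u, ⟨huG₁, huG₂⟩, hu⟩,
      ⟨y, ⟨hyH₁, hyH₂⟩, hy⟩, inter_subset_right, inter_subset_right, ⟨⟨hxN₁, hxN₂⟩, hx₀⟩,
      inter_subset_right, fun a ha b hb => hR₁ _ ha.1.1 _ hb.1.1,
      fun a ha b hb => hR₂ _ ha.1.1 _ hb.1.2, Or.inr fun a ha b hb => hR₃ _ ha.1.2 _ hb.1.2⟩

/-- The end of the recursion: there are no such sequences. -/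
theorem Tour.no_seq [CompletelyRegularSpace X] (hX : IsPseudocompact X) (h : Tour R)
    {G H : ℕ → Set X} {W W' : Set X} (hW : IsClosed W) (hW' : IsClosed W') (hd : Disjoint W W')
    (hGo : ∀ n, IsOpen (G n)) (hHo : ∀ n, IsOpen (H n)) (hGne : ∀ n, (G n).Nonempty)
    (hHne : ∀ n, (H n).Nonempty) (hGW : ∀ n, G n ⊆ W) (hHW : ∀ n, H n ⊆ W')
    (hHG : ∀ n, ∀ a ∈ H n, ∀ b ∈ G n, R a b)
    (hGH : ∀ i j, i < j → ∀ a ∈ G j, ∀ b ∈ H i, R a b)
    (hGG : (∀ i j, i < j → ∀ a ∈ G i, ∀ b ∈ G j, R a b) ∨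
      (∀ i j, i < j → ∀ a ∈ G i, ∀ b ∈ G j, R b a)) : False := by
  obtain ⟨p, hp⟩ := exists_acc hX G hGo hGne
  have hev : ∀ N ∈ 𝓝 p, ∀ᶠ n in atTop, (G n ∩ N).Nonempty := by
    rcases hGG with h1 | h1
    · exact h.acc_eventually hX hGo hGne h1 hp
    · exact h.flip.acc_eventually hX hGo hGne h1 hp
  obtain ⟨q, hq⟩ := exists_acc hX H hHo hHne
  have hpW : p ∈ W := acc_closed hp hW hGW
  have hqW : q ∈ W' := acc_closed hq hW' hHW
  have hpq : p ≠ q := by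
    rintro rfl
    exact disjoint_left.1 hd hpW hqW
  rcases h.conn p q hpq with h1 | h1
  · obtain ⟨O, O', hO, hO', hpO, hqO, hR⟩ := h.exists_nhds h1
    obtain ⟨n, ⟨x, hx, hxO⟩, ⟨y, hy, hyO⟩⟩ :=
      ((hq O' (hO'.mem_nhds hqO)).and_eventually (hev O (hO.mem_nhds hpO))).exists
    exact h.asymm _ _ (hHG n x hx y hy) (hR _ hyO _ hxO)
  · obtain ⟨O', O, hO', hO, hqO, hpO, hR⟩ := h.exists_nhds h1
    obtain ⟨i, x, hx, hxO⟩ := (hq O' (hO'.mem_nhds hqO)).exists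
    obtain ⟨j, hij, y, hy, hyO⟩ := (frequently_atTop.1 (hp O (hO.mem_nhds hpO))) (i + 1)
    exact h.asymm _ _ (hGH i j hij y hy x hx) (hR _ hxO _ hyO)

/-- The uniformity. -/
theorem Tour.uniform [CompletelyRegularSpace X] (hX : IsPseudocompact X) (h : Tour R)
    {𝒱 : Ultrafilter X} {x₀ : X} (hx₀ : ¬ (𝒱 : Filter X) ≤ 𝓝 x₀) (hA : {y | R x₀ y} ∈ 𝒱) :
    ∃ N O : Set X, IsOpen N ∧ IsOpen O ∧ x₀ ∈ N ∧ O ∈ 𝒱 ∧ ∀ a ∈ N, ∀ b ∈ O, R a b := by
  by_contra hcon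
  obtain ⟨W, hW, hW𝒱⟩ : ∃ W ∈ 𝓝 x₀, W ∉ (𝒱 : Filter X) := by
    by_contra hc
    push Not at hc
    exact hx₀ hc
  obtain ⟨W₁, hW₁, hW₁c, hW₁W⟩ := exists_mem_nhds_isClosed_subset hW
  have hW₁𝒱 : W₁ ∉ (𝒱 : Filter X) := fun hc => hW𝒱 (mem_of_superset hc hW₁W)
  obtain ⟨W₀, hW₀, hW₀c, hW₀W⟩ := exists_mem_nhds_isClosed_subset (interior_mem_nhds.2 hW₁)
  set O₀ : Set X := {y | R x₀ y} ∩ W₁ᶜ with hO₀
  have hO₀o : IsOpen O₀ := (h.isOpen_right x₀).inter hW₁c.isOpen_compl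
  have hO₀𝒱 : O₀ ∈ 𝒱 := inter_mem hA (Ultrafilter.compl_mem_iff_notMem.2 hW₁𝒱)
  have hW' : IsClosed (interior W₁)ᶜ := isOpen_interior.isClosed_compl
  have hOW' : O₀ ⊆ (interior W₁)ᶜ := fun x hx hc => hx.2 (interior_subset hc)
  have hd : Disjoint W₀ (interior W₁)ᶜ := disjoint_left.2 fun x hx hc => hc (hW₀W hx)
  have hstep : ∀ N : {N : Set X // IsOpen N ∧ x₀ ∈ N ∧ N ⊆ W₀}, ∃ G H : Set X,
      ∃ N' : {N : Set X // IsOpen N ∧ x₀ ∈ N ∧ N ⊆ W₀},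
      IsOpen G ∧ IsOpen H ∧ G.Nonempty ∧ H.Nonempty ∧ G ⊆ N.1 ∧ H ⊆ O₀ ∧ N'.1 ⊆ N.1 ∧
      (∀ a ∈ H, ∀ b ∈ G, R a b) ∧ (∀ a ∈ N'.1, ∀ b ∈ H, R a b) ∧
      ((∀ a ∈ G, ∀ b ∈ N'.1, R a b) ∨ (∀ a ∈ N'.1, ∀ b ∈ G, R a b)) := by
    rintro ⟨N, hN, hxN, hNW⟩
    have hbad : ∃ a ∈ N, ∃ b ∈ O₀, ¬ R a b := by
      by_contra hc
      push Not at hc
      exact hcon ⟨N, O₀, hN, hO₀o, hxN, hO₀𝒱, hc⟩
    obtain ⟨G, H, N', hG, hH, hN', hGne, hHne, hGN, hHO, hxN', hN'N, h1, h2, h3⟩ :=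
      h.step hN hxN hO₀o (disjoint_left.2 fun x hx hc => disjoint_left.1 hd (hNW hx) (hOW' hc))
        (fun y hy => hy.1) hbad
    exact ⟨G, H, ⟨N', hN', hxN', hN'N.trans hNW⟩, hG, hH, hGne, hHne, hGN, hHO, hN'N, h1, h2, h3⟩
  choose G H nx hGo hHo hGne hHne hGN hHO hnx hHG hNH hGG using hstep
  let N₀ : {N : Set X // IsOpen N ∧ x₀ ∈ N ∧ N ⊆ W₀} :=
    ⟨interior W₀, isOpen_interior, mem_interior_iff_mem_nhds.2 hW₀, interior_subset⟩
  let N : ℕ → {N : Set X // IsOpen N ∧ x₀ ∈ N ∧ N ⊆ W₀} :=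
    fun n => Nat.rec N₀ (fun _ e => nx e) n
  have hNs : ∀ n, N (n + 1) = nx (N n) := fun n => rfl
  have hNanti : ∀ i j, i ≤ j → (N j).1 ⊆ (N i).1 := by
    intro i j hij
    induction j, hij using Nat.le_induction with
    | base => exact subset_rfl
    | succ j hj ih => rw [hNs]; exact (hnx _).trans ih
  have hNanti' : ∀ i j, i < j → (N j).1 ⊆ (nx (N i)).1 := fun i j hij =>
    hNs i ▸ hNanti (i + 1) j hij
  have hfin : ∀ φ : ℕ → ℕ, StrictMono φ →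
      ((∀ n, ∀ a ∈ G (N (φ n)), ∀ b ∈ (nx (N (φ n))).1, R a b) ∨
       (∀ n, ∀ a ∈ (nx (N (φ n))).1, ∀ b ∈ G (N (φ n)), R a b)) → False := by
    intro φ hφ hty
    refine h.no_seq hX (G := fun n => G (N (φ n))) (H := fun n => H (N (φ n))) hW₀c hW' hd
      (fun n => hGo _) (fun n => hHo _) (fun n => hGne _) (fun n => hHne _)
      (fun n => (hGN _).trans (N (φ n)).2.2.2) (fun n => (hHO _).trans hOW') (fun n => hHG _)
      (fun i j hij a ha b hb => hNH _ a (hNanti' _ _ (hφ hij) (hGN _ ha)) b hb) ?_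
    rcases hty with h1 | h1
    · exact Or.inl fun i j hij a ha b hb => h1 i a ha b (hNanti' _ _ (hφ hij) (hGN _ hb))
    · exact Or.inr fun i j hij a ha b hb => h1 i b (hNanti' _ _ (hφ hij) (hGN _ hb)) a ha
  by_cases hfr : ∃ᶠ n in atTop, ∀ a ∈ G (N n), ∀ b ∈ (nx (N n)).1, R a b
  · obtain ⟨φ, hφ, hφR⟩ := extraction_of_frequently_atTop hfr
    exact hfin φ hφ (Or.inl hφR)
  · rw [not_frequently] at hfr
    obtain ⟨φ, hφ, hφR⟩ := extraction_of_frequently_atTop hfr.frequently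
    exact hfin φ hφ (Or.inr fun n => (hGG _).resolve_left (hφR n))

/-- The last step, under an assumption on the ultrafilter. -/
theorem Tour.seqCl_aux [CompletelyRegularSpace X] (hX : IsPseudocompact X) (h : Tour R)
    {u : ℕ → X} (hu : ∀ a, ¬ MapClusterPt a atTop u) {𝒱 : Ultrafilter X}
    (h𝒱 : (𝒱 : Filter X) ≤ map u atTop) (hA : {x | {y | R x y} ∈ 𝒱} ∈ 𝒱) : False := by
  have hnc : ∀ x, ¬ (𝒱 : Filter X) ≤ 𝓝 x := by
    intro x hx
    refine hu x ?_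
    have h1 : ClusterPt x (𝒱 : Filter X) := by
      rw [ClusterPt, inf_eq_right.2 hx]
      exact 𝒱.neBot
    exact h1.mono h𝒱
  have hun : ∀ x : {x : X // {y | R x y} ∈ 𝒱}, ∃ N O : Set X, IsOpen N ∧ IsOpen O ∧ x.1 ∈ N ∧
      O ∈ 𝒱 ∧ ∀ a ∈ N, ∀ b ∈ O, R a b := fun x => h.uniform hX (hnc x.1) x.2
  choose N O hN hO hxN hO𝒱 hNO using hun
  -- the recursion: a state is an index together with the open set so far
  have hnext : ∀ s : ℕ × {O : Set X // IsOpen O ∧ O ∈ 𝒱}, ∃ k : ℕ, s.1 < k ∧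
      u k ∈ s.2.1 ∧ {y | R (u k) y} ∈ 𝒱 := by
    rintro ⟨m, ⟨P, hP, hP𝒱⟩⟩
    have h1 : P ∩ {x | {y | R x y} ∈ 𝒱} ∈ 𝒱 := inter_mem hP𝒱 hA
    have h2 : u '' {k | m < k} ∈ 𝒱 := h𝒱 (image_mem_map (Ioi_mem_atTop m))
    obtain ⟨x, ⟨hx1, hx2⟩, k, hk, rfl⟩ := 𝒱.nonempty_of_mem (inter_mem h1 h2)
    exact ⟨k, hk, hx1, hx2⟩
  choose k hk hkP hkA using hnext
  let st : ℕ × {O : Set X // IsOpen O ∧ O ∈ 𝒱} → ℕ × {O : Set X // IsOpen O ∧ O ∈ 𝒱} :=
    fun s => ⟨k s, ⟨s.2.1 ∩ O ⟨u (k s), hkA s⟩, s.2.2.1.inter (hO _),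
      inter_mem s.2.2.2 (hO𝒱 _)⟩⟩
  let S : ℕ → ℕ × {O : Set X // IsOpen O ∧ O ∈ 𝒱} :=
    fun n => Nat.rec ⟨0, ⟨univ, isOpen_univ, univ_mem⟩⟩ (fun _ s => st s) n
  have hSs : ∀ n, S (n + 1) = st (S n) := fun n => rfl
  have hSanti : ∀ i j, i ≤ j → (S j).2.1 ⊆ (S i).2.1 := by
    intro i j hij
    induction j, hij using Nat.le_induction with
    | base => exact subset_rfl
    | succ j hj ih => rw [hSs]; exact inter_subset_left.trans ih
  -- the points and the sets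
  let x : ℕ → X := fun n => u (k (S n))
  let xA : ∀ n, {x : X // {y | R x y} ∈ 𝒱} := fun n => ⟨u (k (S n)), hkA (S n)⟩
  let G : ℕ → Set X := fun n => (S n).2.1 ∩ N (xA n)
  have hGo : ∀ n, IsOpen (G n) := fun n => (S n).2.2.1.inter (hN _)
  have hxG : ∀ n, x n ∈ G n := fun n => ⟨hkP _, hxN _⟩
  have hGG : ∀ i j, i < j → ∀ a ∈ G i, ∀ b ∈ G j, R a b := by
    intro i j hij a ha b hb
    have h1 : b ∈ (S (i + 1)).2.1 := hSanti (i + 1) j hij hb.1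
    exact hNO (xA i) a ha.2 b h1.2
  have hkm : StrictMono fun n => k (S n) := by
    refine strictMono_nat_of_lt_succ fun n => ?_
    exact hk (S (n + 1))
  obtain ⟨p, hp⟩ := exists_acc hX G hGo fun n => ⟨_, hxG n⟩
  have hup := hu p
  rw [mapClusterPt_iff_frequently] at hup
  push Not at hup
  obtain ⟨E, hE, hEu⟩ := hup
  obtain ⟨E', hE', hE'c, hE'E⟩ := exists_mem_nhds_isClosed_subset hE
  have hEx : ∀ᶠ n in atTop, x n ∉ E' := by
    have h1 : ∀ᶠ n in atTop, u n ∉ E := hEu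
    filter_upwards [hkm.tendsto_atTop.eventually h1] with n hn hc
    exact hn (hE'E hc)
  obtain ⟨n₀, hn₀⟩ := eventually_atTop.1 hEx
  obtain ⟨q, hq⟩ := exists_acc hX (fun n => G (n + n₀) ∩ E'ᶜ)
    (fun n => (hGo _).inter hE'c.isOpen_compl) fun n => ⟨_, hxG (n + n₀), hn₀ _ (by omega)⟩
  have hq' : Acc G q := by
    have h1 : Acc (fun n => G (n + n₀)) q := fun M hM =>
      (hq M hM).mono fun n hn => hn.mono (inter_subset_inter_left _ inter_subset_left)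
    exact h1.of_comp (tendsto_add_atTop_nat n₀)
  have hpq := h.acc_unique hGG hp hq'
  subst hpq
  obtain ⟨n, y, hy, hyE⟩ := (hq E' hE').exists
  exact hy.2 hyE

/-- A pseudocompact Tychonoff space with an open tournament is countably compact. -/
theorem Tour.seqCl_univ [T35Space X] (hX : IsPseudocompact X) (h : Tour R) :
    SeqCl (univ : Set X) := by
  intro u _
  by_contra hcon
  have hu : ∀ a, ¬ MapClusterPt a atTop u := fun a ha => hcon ⟨a, mem_univ a, ha⟩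
  let 𝒱 : Ultrafilter X := Ultrafilter.of (map u atTop)
  have h𝒱 : (𝒱 : Filter X) ≤ map u atTop := Ultrafilter.of_le _
  by_cases hA : {x | {y | R x y} ∈ 𝒱} ∈ 𝒱
  · exact h.seqCl_aux hX hu h𝒱 hA
  · have hA' := Ultrafilter.compl_mem_iff_notMem.2 hA
    refine h.flip.seqCl_aux hX hu h𝒱 (mem_of_superset hA' fun x hx => ?_)
    have h1 : {y | R x y}ᶜ ∈ 𝒱 := Ultrafilter.compl_mem_iff_notMem.2 hx
    have h2 : {x}ᶜ ∈ (𝒱 : Filter X) := by
      rw [Ultrafilter.mem_coe, Ultrafilter.compl_mem_iff_notMem]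
      intro hc
      refine hu x ?_
      have h3 : ClusterPt x (𝒱 : Filter X) := by
        have h4 : (𝒱 : Filter X) ≤ 𝓝 x := fun s hs =>
          mem_of_superset hc (singleton_subset_iff.2 (mem_of_mem_nhds hs))
        rw [ClusterPt, inf_eq_right.2 h4]
        exact 𝒱.neBot
      exact h3.mono h𝒱
    filter_upwards [h1, h2] with y hy1 hy2
    exact (h.conn y x hy2).resolve_right hy1

/-- Locally pseudocompact Tychonoff spaces with an open tournament are locally countably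
compact. -/
theorem IsLocallyPseudocompact.locSeqCl [T35Space X] (hX : IsLocallyPseudocompact X)
    (h : Tour R) : LocSeqCl X := by
  intro x
  obtain ⟨U, hU, hxU, hUp⟩ := hX x
  refine ⟨closure U, mem_of_superset (hU.mem_nhds hxU) subset_closure, isClosed_closure, ?_⟩
  have h' : Tour (fun a b : closure U => R a b) :=
    { asymm := fun a b => h.asymm _ _
      conn := fun a b hab => h.conn _ _ (fun hc => hab (Subtype.ext hc))
      open_prod := h.open_prod.preimage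
        ((continuous_subtype_val.comp continuous_fst).prodMk
          (continuous_subtype_val.comp continuous_snd)) }
  have h1 := h'.seqCl_univ hUp
  intro u hu
  obtain ⟨a, -, ha⟩ := h1 (fun n => ⟨u n, hu n⟩) fun n => mem_univ _
  exact ⟨a, a.2, ha.continuousAt_comp continuous_subtype_val.continuousAt⟩

end Pool.Agent.H110.King
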