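import Pool.Agent.H110.King.Clopen

/-! # Monotone sequences, and a tube lemma for countably compact sets -/

set_option autoImplicit false

namespace Pool.Agent.H110.King

open Set Topology Filter

variable {X : Type*} [TopologicalSpace X] {R : X → X → Prop}

/-- Every sequence in `K` has a cluster point in `K`. -/
def SeqCl (K : Set X) : Prop :=
  ∀ u : ℕ → X, (∀ n, u n ∈ K) → ∃ a ∈ K, MapClusterPt a atTop u

theorem cluster_mem {u : ℕ → X} {a : X} {F : Set X} (ha : MapClusterPt a atTop u)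
    (hF : IsClosed F) (hu : ∀ᶠ n in atTop, u n ∈ F) : a ∈ F := by
  by_contra haF
  have := mapClusterPt_iff_frequently.1 ha Fᶜ (hF.isOpen_compl.mem_nhds haF)
  exact (this.and_eventually hu).exists.elim fun n hn => hn.1 hn.2

theorem SeqCl.mono {K F : Set X} (hK : SeqCl K) (hF : IsClosed F) (hFK : F ⊆ K) : SeqCl F := by
  intro u hu
  obtain ⟨a, -, ha⟩ := hK u fun n => hFK (hu n)
  exact ⟨a, cluster_mem ha hF (Eventually.of_forall hu), ha⟩

theorem SeqCl.union {K L : Set X} (hK : SeqCl K) (hL : SeqCl L) : SeqCl (K ∪ L) := by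
  intro u hu
  by_cases hf : ∃ᶠ n in atTop, u n ∈ K
  · obtain ⟨φ, hφ, hφK⟩ := extraction_of_frequently_atTop hf
    obtain ⟨a, haK, ha⟩ := hK (u ∘ φ) hφK
    exact ⟨a, Or.inl haK, ha.of_comp hφ.tendsto_atTop⟩
  · have hf' : ∃ᶠ n in atTop, u n ∈ L := by
      have h1 : ∀ᶠ n in atTop, u n ∈ L := by
        rw [not_frequently] at hf
        exact hf.mono fun n hn => (hu n).resolve_left hn
      exact h1.frequently
    obtain ⟨φ, hφ, hφK⟩ := extraction_of_frequently_atTop hf'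
    obtain ⟨a, haK, ha⟩ := hL (u ∘ φ) hφK
    exact ⟨a, Or.inr haK, ha.of_comp hφ.tendsto_atTop⟩

/-- A monotone sequence has at most one cluster point. -/
theorem Tour.cluster_unique (h : Tour R) {u : ℕ → X} (hu : ∀ i j, i < j → R (u i) (u j))
    {a b : X} (ha : MapClusterPt a atTop u) (hb : MapClusterPt b atTop u) : a = b := by
  have key : ∀ a b : X, MapClusterPt a atTop u → MapClusterPt b atTop u → ¬ R a b := by
    intro a b ha hb hab
    obtain ⟨O, O', hO, hO', haO, hbO, hR⟩ := h.exists_nhds hab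
    obtain ⟨i, hi⟩ := (mapClusterPt_iff_frequently.1 hb O' (hO'.mem_nhds hbO)).exists
    obtain ⟨j, hij, hj⟩ := (frequently_atTop.1
      (mapClusterPt_iff_frequently.1 ha O (hO.mem_nhds haO))) (i + 1)
    exact h.asymm _ _ (hu i j hij) (hR _ hj _ hi)
  by_contra hne
  rcases h.conn a b hne with h1 | h1
  · exact key a b ha hb h1
  · exact key b a hb ha h1

/-- A monotone sequence in a set with `SeqCl` converges. -/
theorem Tour.tendsto_of_mono (h : Tour R) {K : Set X} (hK : SeqCl K) {u : ℕ → X}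
    (huK : ∀ n, u n ∈ K) (hu : ∀ i j, i < j → R (u i) (u j)) :
    ∃ a ∈ K, Tendsto u atTop (𝓝 a) := by
  obtain ⟨a, haK, ha⟩ := hK u huK
  refine ⟨a, haK, ?_⟩
  rw [tendsto_def]
  intro s hs
  by_contra hcon
  obtain ⟨O, hOs, hO, haO⟩ := mem_nhds_iff.1 hs
  have hfr : ∃ᶠ n in atTop, u n ∈ Oᶜ := by
    intro hev
    refine hcon ?_
    filter_upwards [hev] with n hn
    exact hOs (not_not.1 hn)
  obtain ⟨φ, hφ, hφO⟩ := extraction_of_frequently_atTop hfr
  obtain ⟨b, -, hb⟩ := hK (u ∘ φ) fun n => huK _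
  have hbO : b ∈ Oᶜ := cluster_mem hb hO.isClosed_compl (Eventually.of_forall hφO)
  have := h.cluster_unique hu ha (hb.of_comp hφ.tendsto_atTop)
  subst this
  exact hbO haO

/-- The core of the tube lemma: if every point of a countably compact set `K` beats `p`, then the
points of `K` beat all points near `p`. -/
theorem Tour.tube_aux (h : Tour R) {K M : Set X} {p : X} (hK : SeqCl K) (hM : SeqCl M)
    (hMp : M ∈ 𝓝 p) (hd : Disjoint M K) (hkp : ∀ k ∈ K, R k p) :
    ∃ E ∈ 𝓝 p, ∀ t ∈ E, ∀ k ∈ K, R k t := by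
  by_contra hcon
  have hbad : ∀ E ∈ 𝓝 p, ∃ t k, t ∈ E ∧ t ∈ M ∧ k ∈ K ∧ R t k := by
    intro E hE
    by_contra hc
    push Not at hc
    refine hcon ⟨E ∩ M, inter_mem hE hMp, fun t ht k hk => ?_⟩
    have hne : k ≠ t := by
      rintro rfl
      exact disjoint_left.1 hd ht.2 hk
    exact (h.conn k t hne).resolve_right (hc t k ht.1 ht.2 hk)
  choose t k htE htM hkK hR using hbad
  -- neighbourhoods
  have hnext : ∀ E : {E : Set X // E ∈ 𝓝 p}, ∃ E' : {E : Set X // E ∈ 𝓝 p},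
      E'.1 ⊆ E.1 ∧ ∀ s ∈ E'.1, R (k E.1 E.2) s ∧
        ((R (t E.1 E.2) p ∧ R (t E.1 E.2) s) ∨ (R p (t E.1 E.2) ∧ R s (t E.1 E.2))) := by
    rintro ⟨E, hE⟩
    have h1 : {s | R (k E hE) s} ∈ 𝓝 p := (h.isOpen_right _).mem_nhds (hkp _ (hkK _ _))
    have hne : t E hE ≠ p := by
      intro hc
      have := hR E hE
      rw [hc] at this
      exact h.asymm _ _ this (hkp _ (hkK _ _))
    rcases h.conn _ _ hne with h2 | h2
    · exact ⟨⟨E ∩ ({s | R (k E hE) s} ∩ {s | R (t E hE) s}), inter_mem hE (inter_mem h1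
        ((h.isOpen_right _).mem_nhds h2))⟩, inter_subset_left,
        fun s hs => ⟨hs.2.1, Or.inl ⟨h2, hs.2.2⟩⟩⟩
    · exact ⟨⟨E ∩ ({s | R (k E hE) s} ∩ {s | R s (t E hE)}), inter_mem hE (inter_mem h1
        ((h.isOpen_left _).mem_nhds h2))⟩, inter_subset_left,
        fun s hs => ⟨hs.2.1, Or.inr ⟨h2, hs.2.2⟩⟩⟩
  choose nx hnx hnx' using hnext
  let E : ℕ → {E : Set X // E ∈ 𝓝 p} := fun n => Nat.rec ⟨univ, univ_mem⟩ (fun _ e => nx e) n
  have hEs : ∀ n, E (n + 1) = nx (E n) := fun n => rfl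
  have hEanti : ∀ i j, i ≤ j → (E j).1 ⊆ (E i).1 := by
    intro i j hij
    induction j, hij using Nat.le_induction with
    | base => exact subset_rfl
    | succ j hj ih => rw [hEs]; exact (hnx _).trans ih
  let tt : ℕ → X := fun n => t (E n).1 (E n).2
  let kk : ℕ → X := fun n => k (E n).1 (E n).2
  have hrel : ∀ i j, i < j → R (kk i) (tt j) ∧
      ((R (tt i) p ∧ R (tt i) (tt j)) ∨ (R p (tt i) ∧ R (tt j) (tt i))) := by
    intro i j hij
    have hmem : tt j ∈ (nx (E i)).1 := hEs i ▸ hEanti (i + 1) j hij (htE _ _)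
    exact hnx' (E i) _ hmem
  -- subsequences
  have hfin : ∀ φ : ℕ → ℕ, StrictMono φ →
      (∃ τ ∈ M, Tendsto (tt ∘ φ) atTop (𝓝 τ)) → False := by
    rintro φ hφ ⟨τ, hτM, hτ⟩
    obtain ⟨κ, hκK, hκ⟩ := hK (kk ∘ φ) fun n => hkK _ _
    have h1 : ∀ i, R (kk (φ i)) τ := by
      intro i
      have h2 : τ ∈ {y | y = kk (φ i) ∨ R (kk (φ i)) y} := by
        refine (h.isClosed_right (kk (φ i))).mem_of_tendsto hτ ?_
        filter_upwards [eventually_gt_atTop i] with j hj
        exact Or.inr (hrel _ _ (hφ hj)).1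
      rcases h2 with h2 | h2
      · exact absurd (h2 ▸ hkK _ _) (disjoint_left.1 hd hτM)
      · exact h2
    have h3 : κ ∈ {y | y = τ ∨ R y τ} :=
      cluster_mem hκ (h.isClosed_left τ) (Eventually.of_forall fun i => Or.inr (h1 i))
    rcases h3 with h3 | h3
    · exact absurd (h3 ▸ hκK) (disjoint_left.1 hd hτM)
    · obtain ⟨O, O', hO, hO', hκO, hτO, hOO⟩ := h.exists_nhds h3
      have h4 := mapClusterPt_iff_frequently.1 hκ O (hO.mem_nhds hκO)
      have h5 := hτ.eventually (hO'.mem_nhds hτO)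
      obtain ⟨n, hn1, hn2⟩ := (h4.and_eventually h5).exists
      exact h.asymm _ _ (hOO _ hn1 _ hn2) (hR _ _)
  by_cases hfr : ∃ᶠ n in atTop, R (tt n) p
  · obtain ⟨φ, hφ, hφR⟩ := extraction_of_frequently_atTop hfr
    refine hfin φ hφ (h.tendsto_of_mono hM (fun n => htM _ _) fun i j hij => ?_)
    rcases (hrel _ _ (hφ hij)).2 with h1 | h1
    · exact h1.2
    · exact absurd (hφR i) (h.asymm _ _ h1.1)
  · have hfr' : ∃ᶠ n in atTop, ¬ R (tt n) p := by
      rw [not_frequently] at hfr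
      exact hfr.frequently
    obtain ⟨φ, hφ, hφR⟩ := extraction_of_frequently_atTop hfr'
    refine hfin φ hφ (h.flip.tendsto_of_mono hM (fun n => htM _ _) fun i j hij => ?_)
    rcases (hrel _ _ (hφ hij)).2 with h1 | h1
    · exact absurd h1.1 (hφR i)
    · exact h1.2

/-- Every point has a neighbourhood in which every sequence clusters. -/
def LocSeqCl (X : Type*) [TopologicalSpace X] : Prop :=
  ∀ x : X, ∃ M ∈ 𝓝 x, IsClosed M ∧ SeqCl M

/-- Small such neighbourhoods. -/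
theorem LocSeqCl.exists_subset [RegularSpace X] (hX : LocSeqCl X) {x : X} {O : Set X}
    (hO : O ∈ 𝓝 x) : ∃ M ∈ 𝓝 x, IsClosed M ∧ SeqCl M ∧ M ⊆ O := by
  obtain ⟨M, hM, hMc, hMs⟩ := hX x
  obtain ⟨V, hV, hVc, hVO⟩ := exists_mem_nhds_isClosed_subset hO
  exact ⟨M ∩ V, inter_mem hM hV, hMc.inter hVc, hMs.mono (hMc.inter hVc) inter_subset_left,
    inter_subset_right.trans hVO⟩

/-- The tube lemma: points near `p` compare with the points of a closed countably compact set as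
`p` does. -/
theorem Tour.tube (h : Tour R) [RegularSpace X] (hX : LocSeqCl X) {K : Set X} {p : X}
    (hK : SeqCl K) (hKc : IsClosed K) (hp : p ∉ K) :
    ∃ E ∈ 𝓝 p, ∀ t ∈ E, ∀ k ∈ K, (R k t ↔ R k p) := by
  obtain ⟨M, hM, -, hMs, hMK⟩ := hX.exists_subset (hKc.isOpen_compl.mem_nhds hp)
  have hd : Disjoint M K := disjoint_left.2 fun x hx => hMK hx
  have h1c : IsClosed (K ∩ {y | y = p ∨ R y p}) := hKc.inter (h.isClosed_left p)
  have h2c : IsClosed (K ∩ {y | y = p ∨ R p y}) := hKc.inter (h.isClosed_right p)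
  obtain ⟨E₁, hE₁, h1⟩ := h.tube_aux (hK.mono h1c inter_subset_left) hMs hM
    (hd.mono_right inter_subset_left) (p := p) (fun k hk => hk.2.resolve_left (by
      rintro rfl
      exact hp hk.1))
  obtain ⟨E₂, hE₂, h2⟩ := h.flip.tube_aux (hK.mono h2c inter_subset_left) hMs hM
    (hd.mono_right inter_subset_left) (p := p) (fun k hk => hk.2.resolve_left (by
      rintro rfl
      exact hp hk.1))
  refine ⟨E₁ ∩ E₂, inter_mem hE₁ hE₂, fun t ht k hk => ?_⟩
  have hkp : k ≠ p := by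
    rintro rfl
    exact hp hk
  rcases h.conn k p hkp with h3 | h3
  · exact ⟨fun _ => h3, fun _ => h1 t ht.1 k ⟨hk, Or.inr h3⟩⟩
  · exact ⟨fun h4 => absurd (h2 t ht.2 k ⟨hk, Or.inr h3⟩) (h.asymm _ _ h4),
      fun h4 => absurd h4 (h.asymm _ _ h3)⟩

end Pool.Agent.H110.King
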